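import Pool.Agent.H29.BH.Targets1

/-!
# The hybrid bound of Burgess: targets, parts M, N, P
-/

set_option autoImplicit false

open NumberField NumberField.InfinitePlace NumberField.Units
  NumberField.Units.dirichletUnitTheorem MeasureTheory Set Filter Complex
open scoped nonZeroDivisors ENNReal

namespace Pool.Agent.H29.BH

open Pool.Agent.H25.HK Pool.Agent.H23.LB Pool.Agent.H23.LC Pool.Agent.H29.DW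
open Pool.Agent.H28.RC (Rep ft idl)
open Pool.Agent.H29.TC (dvs cq LC Gn MC)
open Pool.Agent.H23.BG (c4 al be ga Iso nrt c4M Ac)

section Defs

variable {K : Type} [Field K] [NumberField K]

/-- the quadruple `0, p, q, s` -/
def qd {R : Type} [Zero R] (p q s : R) : Fin 4 → R := ![0, p, q, s]

/-- the product of the weights of the cross differences -/
noncomputable def wx (f : Ideal (𝓞 K)) (M : FI K) (b : Fin 4 → K) : ℝ :=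
  wf K f M (b 0 - b 2) * wf K f M (b 0 - b 3) * wf K f M (b 1 - b 2) * wf K f M (b 1 - b 3)

/-- the product of the norms of the cross differences -/
noncomputable def nx (y : InfinitePlace K → ℝ) (b : Fin 4 → K) : ℝ :=
  nv y (b 0 - b 2) * nv y (b 0 - b 3) * nv y (b 1 - b 2) * nv y (b 1 - b 3)

/-- the norm of the ideal of `b_0 = b_1`, `b_2 = b_3` -/
noncomputable def gx (f : Ideal (𝓞 K)) (M : FI K) (b : Fin 4 → K) : ℝ :=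
  Nf K (f ⊔ idl K M (b 0 - b 1) ⊔ idl K M (b 2 - b 3))

/-- the bounds for the terms of the fourth moment -/
structure Ub (f : Ideal (𝓞 K)) (M : FI K) (y : InfinitePlace K → ℝ) (ε Q : ℝ)
    (U : (Fin 4 → K) → ℝ) : Prop where
  triv : ∀ b, (∀ i, b i ∈ M) → b 0 = 0 → U b ≤ Nf K f
  gen : ∀ b, (∀ i, b i ∈ M) → b 0 = 0 → nx y b ≠ 0 →
    U b ≤ (Nf K f / Q) ^ (1 / 2 : ℝ) * Q ^ ε *
      (wx f M b ^ (1 / 2 : ℝ) * nx y b ^ (-(1 / 4 + ε)) * gx f M b ^ (1 / 2 : ℝ))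
  d02 : ∀ b, (∀ i, b i ∈ M) → b 0 = 0 → b 0 = b 2 → b 1 ≠ b 3 →
    U b ≤ wf K f M (b 1 - b 3) * (Q * nv y (b 1 - b 3)) ^ (-(1 / 2) : ℝ)
  d03 : ∀ b, (∀ i, b i ∈ M) → b 0 = 0 → b 0 = b 3 → b 1 ≠ b 2 →
    U b ≤ wf K f M (b 1 - b 2) * (Q * nv y (b 1 - b 2)) ^ (-(1 / 2) : ℝ)
  d12 : ∀ b, (∀ i, b i ∈ M) → b 0 = 0 → b 1 = b 2 → b 0 ≠ b 3 →
    U b ≤ wf K f M (b 0 - b 3) * (Q * nv y (b 0 - b 3)) ^ (-(1 / 2) : ℝ)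
  d13 : ∀ b, (∀ i, b i ∈ M) → b 0 = 0 → b 1 = b 3 → b 0 ≠ b 2 →
    U b ≤ wf K f M (b 0 - b 2) * (Q * nv y (b 0 - b 2)) ^ (-(1 / 2) : ℝ)

variable (K)

/-- the ball of radius `3` -/
def ZB : Set (InfinitePlace K → ℂ) := {z | ∀ v, ‖z v‖ ≤ 3}

/-- the annulus -/
def AnK : Set (InfinitePlace K → ℂ) := {p | ∀ v, 1 ≤ ‖p v‖ ∧ ‖p v‖ ≤ 2}

variable {K}

open scoped Classical in
/-- the function `∏_v Gm (1 + b_v / p_v)`, cut off at `|b|_v ≤ 1 / 8` -/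
noncomputable def Ph0 (k : InfinitePlace K → ℤ) (μ : InfinitePlace K → ℂ)
    (b p : InfinitePlace K → ℂ) : ℂ :=
  if ∀ v, ‖b v‖ ≤ 1 / 8 then ∏ v : InfinitePlace K, Gm (k v) (μ v) (1 + b v / p v) else 0

end Defs

/-! ### Part M: the fourth moment -/

/-- (PI) integrals of products over the places. -/
def M_PI : Prop :=
  ∀ (K : Type) [Field K] [NumberField K] (g : InfinitePlace K → ℂ → ℂ → ℂ) (B : ℝ),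
    (∀ v, Measurable (fun q : ℂ × ℂ => g v q.1 q.2)) →
    (∀ v b z, ‖g v b z‖ ≤ B ∧ (g v b z ≠ 0 → ‖b‖ ≤ B ∧ ‖z‖ ≤ B)) →
    Integrable (fun q : (InfinitePlace K → ℂ) × (InfinitePlace K → ℂ) =>
      ∏ v, g v (q.1 v) (q.2 v)) ((mK K).prod (mK K)) ∧
    ENNReal.ofReal ‖∫ b, ∫ z, ∏ v, g v (b v) (z v) ∂mK K ∂mK K‖ ≤
      ∏ v, ∫⁻ b, ENNReal.ofReal ‖∫ z, g v b z ∂mz (rv v)‖ ∂mz (rv v)

/-- (MA) unfolding of the fourth moment. -/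
def M_A : Prop :=
  ∀ (K : Type) [Field K] [NumberField K] (f : Ideal (𝓞 K)) (L : FI K)
    (y : InfinitePlace K → ℝ) (F : Set (InfinitePlace K → ℂ)) (X : Finset K) (c : K → ℂ)
    (k : InfinitePlace K → ℤ) (μ : InfinitePlace K → ℂ) (B : ℝ)
    (A : InfinitePlace K → ℂ → ℂ → ℂ), f ≠ ⊥ → L ≠ 0 → FS ((f : FI K) * L) y F →
    Rep K f L X → (∀ x ∈ L, ‖c x‖ ≤ 1) → (∀ x ∈ L, ∀ l ∈ (f : FI K) * L, c (x + l) = c x) →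
    Qk k μ → Amp B A →
    ∫⁻ z, ∫⁻ ζ in F, ENNReal.ofReal (‖TT c L y (PhA k μ A) ζ z‖ ^ 4) ∂mK K ∂mK K ≤
      ∑' p : {x : K // x ∈ L}, ∑' q : {x : K // x ∈ L}, ∑' s : {x : K // x ∈ L},
        ENNReal.ofReal ‖c4M K X c (qd p.1 q.1 s.1)‖ *
          ∏ v : InfinitePlace K, Jv (rv v) (k v) (μ v) (A v) (qd (sy y p.1 v) (sy y q.1 v)
            (sy y s.1 v))

open scoped Classical in
/-- (MC) the sum over the quadruples. -/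
def M_C : Prop :=
  ∀ n : ℕ, 0 < n → ∀ ε : ℝ, 0 < ε → ε ≤ 1 / 8 → ∃ C : ℝ, 1 ≤ C ∧ ∀ (K : Type) [Field K]
    [NumberField K], Module.finrank ℚ K = n → ∀ (f : Ideal (𝓞 K)) (L : FI K)
    (y : InfinitePlace K → ℝ) (Q : ℝ) (U : (Fin 4 → K) → ℝ), f ≠ ⊥ → L ≠ 0 → 1 ≤ Q →
    Ub f L y ε Q U →
    ∑' p : {x : K // x ∈ L}, ∑' q : {x : K // x ∈ L}, ∑' s : {x : K // x ∈ L},
      (if ∀ v, ‖sy y p.1 v‖ ≤ 1 / 4 ∧ ‖sy y q.1 v‖ ≤ 1 / 4 ∧ ‖sy y s.1 v‖ ≤ 1 / 4 then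
        ENNReal.ofReal (U (qd p.1 q.1 s.1)) else 0) ≤
      ENNReal.ofReal (C * (dvs K f).card ^ 3 * (Nf K f * (1 + bt L y) +
        (Nf K f / Q) ^ (1 / 2 : ℝ) * Q ^ ε * bt L y ^ 3))

/-- (M4) the fourth moment. -/
def M_4 : Prop :=
  ∀ n : ℕ, 0 < n → ∀ ε : ℝ, 0 < ε → ε ≤ 1 / 8 → ∃ C : ℝ, 1 ≤ C ∧ ∀ (K : Type) [Field K]
    [NumberField K], Module.finrank ℚ K = n → ∀ (f : Ideal (𝓞 K)), f ≠ ⊥ → ∀ (χ : HG K f),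
    PrG f χ → ∀ (L : FI K) (y : InfinitePlace K → ℝ) (F : Set (InfinitePlace K → ℂ))
    (μ : InfinitePlace K → ℂ) (B : ℝ) (A : InfinitePlace K → ℂ → ℂ → ℂ), L ≠ 0 →
    FS ((f : FI K) * L) y F → Qk χ.k μ → 1 ≤ B → Amp B A →
    ∫⁻ z, ∫⁻ ζ in F, ENNReal.ofReal (‖TT (cg χ L) L y (PhA χ.k μ A) ζ z‖ ^ 4) ∂mK K ∂mK K ≤
      ENNReal.ofReal (C * B ^ (4 * n) * (dvs K f).card ^ 5 * (Nf K f * (1 + bt L y) +
        (Nf K f / cK χ.k μ) ^ (1 / 2 : ℝ) * cK χ.k μ ^ ε * bt L y ^ 3))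

/-! ### Part N: multipliers -/

/-- (GC) the sum of the norms of the greatest common divisors. -/
def N_GC : Prop :=
  ∀ n : ℕ, 0 < n → ∀ ε : ℝ, 0 < ε → ε ≤ 1 → ∃ C : ℝ, 1 ≤ C ∧ ∀ (K : Type) [Field K]
    [NumberField K], Module.finrank ℚ K = n → ∀ (f : Ideal (𝓞 K)) (A : ℝ)
    (S : Finset (Ideal (𝓞 K))), Mul f A S →
    ∑ a ∈ S, ∑ b ∈ S, Nf K (a ⊔ b) ≤ C * S.card * A ^ (1 + ε) ∧
    (S.card : ℝ) ≤ C * A ^ (1 + ε)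

/-- (CA) the mean values of the counting functions of two multipliers. -/
def N_CA : Prop :=
  ∀ n : ℕ, 0 < n → ∃ C : ℝ, 1 ≤ C ∧ ∀ (K : Type) [Field K] [NumberField K],
    Module.finrank ℚ K = n → ∀ (f a b : Ideal (𝓞 K)) (L : FI K) (y η : InfinitePlace K → ℝ)
    (F : Set (InfinitePlace K → ℂ)) (z : InfinitePlace K → ℂ), f ≠ ⊥ → a ≠ ⊥ → b ≠ ⊥ → L ≠ 0 →
    FS ((f : FI K) * L) y F → (∀ v, 0 < η v) →
    ∫⁻ ζ in F, nA f L y η a ζ z ∂mK K ≤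
      ENNReal.ofReal (C * (∏ v, η v ^ v.mult) * Nf K a) ∧
    ∫⁻ ζ in F, nA f L y η a ζ z * nA f L y η b ζ z ∂mK K ≤
      ENNReal.ofReal (C * (∏ v, η v ^ v.mult) * (Nf K (a ⊔ b) +
        (∏ v, η v ^ v.mult) * bt L y * (Nf K a * Nf K b) / Nf K f))

/-- (MT) measurability. -/
def N_MT : Prop :=
  ∀ (K : Type) [Field K] [NumberField K] (f : Ideal (𝓞 K)) (L : FI K)
    (y : InfinitePlace K → ℝ), L ≠ 0 →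
    (∀ (c : K → ℂ) (k : InfinitePlace K → ℤ) (μ : InfinitePlace K → ℂ) (B : ℝ)
      (A : InfinitePlace K → ℂ → ℂ → ℂ), Amp B A →
      Measurable (fun q : (InfinitePlace K → ℂ) × (InfinitePlace K → ℂ) =>
        TT c L y (PhA k μ A) q.1 q.2)) ∧
    ∀ (η : InfinitePlace K → ℝ) (a : Ideal (𝓞 K)),
      Measurable (fun q : (InfinitePlace K → ℂ) × (InfinitePlace K → ℂ) =>
        nA f L y η a q.1 q.2)

/-- (CB) the moments of the counting function. -/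
def N_CB : Prop :=
  ∀ n : ℕ, 0 < n → ∀ ε : ℝ, 0 < ε → ε ≤ 1 → ∃ C : ℝ, 1 ≤ C ∧ ∀ (K : Type) [Field K]
    [NumberField K], Module.finrank ℚ K = n → ∀ (f : Ideal (𝓞 K)) (L : FI K)
    (y η : InfinitePlace K → ℝ) (F : Set (InfinitePlace K → ℂ)) (A : ℝ)
    (S : Finset (Ideal (𝓞 K))), f ≠ ⊥ → L ≠ 0 → FS ((f : FI K) * L) y F → (∀ v, 0 < η v) →
    Mul f A S →
    ∫⁻ z in ZB K, ∫⁻ ζ in F, ∑ a ∈ S, nA f L y η a ζ z ∂mK K ∂mK K ≤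
      ENNReal.ofReal (C * (∏ v, η v ^ v.mult) * (S.card * A)) ∧
    ∫⁻ z in ZB K, ∫⁻ ζ in F, (∑ a ∈ S, nA f L y η a ζ z) ^ 2 ∂mK K ∂mK K ≤
      ENNReal.ofReal (C * (∏ v, η v ^ v.mult) * (S.card * A) * A ^ ε *
        (1 + (∏ v, η v ^ v.mult) * bt L y * (S.card * A) / Nf K f))

/-- (SH) the shift. -/
def N_SH : Prop :=
  ∀ (K : Type) [Field K] [NumberField K] (f a : Ideal (𝓞 K)), f ≠ ⊥ → a ≠ ⊥ → a ⊔ f = ⊤ →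
    ∀ (χ : HG K f) (L : FI K) (V : Finset K) (G : K → ℂ), L ≠ 0 →
    Rep K a ((f : FI K) * ((a : FI K)⁻¹ * L)) V →
    {x : K | x ∈ (a : FI K)⁻¹ * L ∧ G x ≠ 0}.Finite →
    ∑' x : {x : K // x ∈ (a : FI K)⁻¹ * L}, cg χ ((a : FI K)⁻¹ * L) x * G x =
      χ.ψ a * ∑ w ∈ V, ∑' x : {x : K // x ∈ L}, cg χ L x * G (x + w)

/-- (S1) the kernel of the unfolding as an integral over the annulus. -/
def N_S1 : Prop :=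
  ∀ n : ℕ, 0 < n → ∃ C : ℝ, 1 ≤ C ∧ ∀ (K : Type) [Field K] [NumberField K],
    Module.finrank ℚ K = n → ∀ (f : Ideal (𝓞 K)), f ≠ ⊥ → ∀ (χ : HG K f) (M : FI K)
    (y : InfinitePlace K → ℝ) (μ : InfinitePlace K → ℂ), M ≠ 0 → Qk χ.k μ →
    ENNReal.ofReal ‖SS χ M y μ‖ ≤ ENNReal.ofReal C * ∫⁻ p in AnK K,
      ENNReal.ofReal ‖∑' x : {x : K // x ∈ M}, cg χ M x *
        Ph0 χ.k μ (fun v => sy y x.1 v - p v) p‖ ∂mK K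

open scoped Classical in
/-- (DK) separation at all places. -/
def N_DK : Prop :=
  ∀ n : ℕ, 0 < n → ∃ C : ℝ, 1 ≤ C ∧ ∀ (K : Type) [Field K] [NumberField K],
    Module.finrank ℚ K = n → ∀ (k : InfinitePlace K → ℤ) (μ : InfinitePlace K → ℂ)
    (η : InfinitePlace K → ℝ), Qk k μ → (∀ v, 0 < η v) →
    (∀ v, η v * cc (k v) (μ v) ≤ 1 / 16) →
    ∃ (κ : (InfinitePlace K → Fin 4) → (InfinitePlace K → ℂ) → ℂ)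
      (A : (InfinitePlace K → Fin 4) → InfinitePlace K → ℂ → ℂ → ℂ),
    (∀ j, Measurable (κ j)) ∧ (∀ j s, ‖κ j s‖ ≤ (∏ v, η v ^ v.mult)⁻¹) ∧
    (∀ j s, κ j s ≠ 0 → ∀ v, ‖s v‖ ≤ 2 * η v) ∧ (∀ j, Amp C (A j)) ∧
    ∀ b p : InfinitePlace K → ℂ, (∀ v, Rl (rv v) (b v)) → (∀ v, Rl (rv v) (p v)) → p ∈ AnK K →
      Ph0 k μ b p = ∑ j : InfinitePlace K → Fin 4,
        ∫ s, κ j s * PhA k μ (A j) b (fun v => p v + s v) ∂mK K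

open scoped Classical in
/-- (SD) shift and separation. -/
def N_SD : Prop :=
  ∀ n : ℕ, 0 < n → ∃ C : ℝ, 1 ≤ C ∧ ∀ (K : Type) [Field K] [NumberField K],
    Module.finrank ℚ K = n → ∀ (f : Ideal (𝓞 K)), f ≠ ⊥ → ∀ (χ : HG K f) (L : FI K)
    (y η : InfinitePlace K → ℝ) (F : Set (InfinitePlace K → ℂ)) (μ : InfinitePlace K → ℂ),
    L ≠ 0 → FS ((f : FI K) * L) y F → Qk χ.k μ → (∀ v, 0 < η v) →
    (∀ v, η v * cc (χ.k v) (μ v) ≤ 1 / 16) →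
    ∃ A : (InfinitePlace K → Fin 4) → InfinitePlace K → ℂ → ℂ → ℂ, (∀ j, Amp C (A j)) ∧
    ∀ a : Ideal (𝓞 K), a ≠ ⊥ → a ⊔ f = ⊤ →
      ENNReal.ofReal ‖SS χ ((a : FI K)⁻¹ * L) y μ‖ ≤
        ENNReal.ofReal (C * (∏ v, η v ^ v.mult)⁻¹) * ∑ j : InfinitePlace K → Fin 4,
          ∫⁻ z in ZB K, ∫⁻ ζ in F, nA f L y η a ζ z *
            ENNReal.ofReal ‖TT (cg χ L) L y (PhA χ.k μ (A j)) ζ z‖ ∂mK K ∂mK K

/-- (HB) the inequality of Hoelder. -/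
def N_HB : Prop :=
  ∀ n : ℕ, 0 < n → ∀ ε : ℝ, 0 < ε → ε ≤ 1 / 8 → ∃ C : ℝ, 1 ≤ C ∧ ∀ (K : Type) [Field K]
    [NumberField K], Module.finrank ℚ K = n → ∀ (f : Ideal (𝓞 K)), f ≠ ⊥ → ∀ (χ : HG K f),
    PrG f χ → ∀ (L : FI K) (y : InfinitePlace K → ℝ) (μ : InfinitePlace K → ℂ) (A P : ℝ)
    (S : Finset (Ideal (𝓞 K))), L ≠ 0 → Qk χ.k μ → Mul f A S → P = Nf K f * cK χ.k μ →
    ∑ a ∈ S, ‖SS χ ((a : FI K)⁻¹ * L) y μ‖ ≤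
      C * (A * P) ^ ε * (S.card * A) ^ (3 / 4 : ℝ) *
        (1 + S.card * A * bt L y / P) ^ (1 / 4 : ℝ) *
          (P * (1 + bt L y) + P ^ (1 / 2 : ℝ) * bt L y ^ 3) ^ (1 / 4 : ℝ)

/-! ### Part P: positions, assembly -/

/-- (MS) measurability of the sums. -/
def P_MS : Prop :=
  ∀ (K : Type) [Field K] [NumberField K] (f : Ideal (𝓞 K)), f ≠ ⊥ → ∀ (χ : HG K f) (M : FI K)
    (σ t : ℝ), M ≠ 0 →
    Measurable (fun q : ℝ × ℝ × logSpace K =>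
      SS χ M (yM K M q.2.1 q.2.2) (mp χ.ν σ (t + q.1))) ∧
    ∀ μ : InfinitePlace K → ℂ,
      Measurable (fun q : ℝ × logSpace K => SS χ M (yM K M q.1 q.2) μ)

open scoped Classical in
/-- (UR) unfolding. -/
def P_UR : Prop :=
  ∀ n : ℕ, 0 < n → ∃ C : ℝ, 1 ≤ C ∧ ∀ (K : Type) [Field K] [NumberField K],
    Module.finrank ℚ K = n → ∀ (f : Ideal (𝓞 K)), f ≠ ⊥ → ∀ (χ : HG K f) (ι : Type)
    [Fintype ι] (M : ι → FI K), Reps K M → ∀ (t : ℝ) (v : ℝ → ℂ),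
    (∃ C : ℝ, ∀ x : ℝ, 1 ≤ x → ‖v x‖ ≤ C * x ^ (-(3 / 2) : ℝ)) →
    ENNReal.ofReal ‖∑' J : NZI K, χ.ψ J.1 * v (Ideal.absNorm J.1) *
      (Ideal.absNorm J.1 : ℂ) ^ (-(t * I : ℂ))‖ ≤
    ENNReal.ofReal C * ∑ c, ∫⁻ z in Fd K, ∫⁻ τ : ℝ,
      ENNReal.ofReal ‖∑' x : {x : K // x ∈ M c ∧ x ≠ 0}, χ.ψ (idl K (M c) x) *
        v (Ideal.absNorm (idl K (M c) x)) *
          (Ideal.absNorm (idl K (M c) x.1) : ℂ) ^ (-(t * I : ℂ)) *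
            ((PK (sy (yM K (M c) τ z) x.1) : ℝ) : ℂ)‖

/-- (IN) the integral representation of the weights. -/
def P_IN : Prop :=
  ∀ (K : Type) [Field K] [NumberField K] (f : Ideal (𝓞 K)), f ≠ ⊥ → ∀ (χ : HG K f) (M : FI K)
    (κ X B t : ℝ) (v : ℝ → ℂ), M ≠ 0 → 0 < κ → κ ≤ 1 → 0 < X → 0 ≤ B → Wt κ X B v →
    ∀ (z : logSpace K) (τ σ : ℝ), (σ = κ ∨ σ = 1) →
    ENNReal.ofReal ‖∑' x : {x : K // x ∈ M ∧ x ≠ 0}, χ.ψ (idl K M x) *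
        v (Ideal.absNorm (idl K M x)) * (Ideal.absNorm (idl K M x.1) : ℂ) ^ (-(t * I : ℂ)) *
          ((PK (sy (yM K M τ z) x.1) : ℝ) : ℂ)‖ ≤
      ENNReal.ofReal (B * X ^ σ * Real.exp (τ * (1 / 2 + σ))) * ∫⁻ u : ℝ,
        ENNReal.ofReal (Real.exp (-u ^ 2 / 4) * ‖SS χ M (yM K M τ z) (mp χ.ν σ (t + u))‖)

open scoped Classical in
/-- (IV) independence of the representatives. -/
def P_IV : Prop :=
  ∀ (K : Type) [Field K] [NumberField K] (f : Ideal (𝓞 K)), f ≠ ⊥ → ∀ (χ : HG K f)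
    (ι ι' : Type) [Fintype ι] [Fintype ι'] (M : ι → FI K) (M' : ι' → FI K), Reps K M →
    Reps K M' → ∀ (μ : InfinitePlace K → ℂ) (T : Set ℝ), MeasurableSet T →
    ∑ c, ∫⁻ z in Fd K, ∫⁻ τ in T, ENNReal.ofReal ‖SS χ (M c) (yM K (M c) τ z) μ‖ =
      ∑ c, ∫⁻ z in Fd K, ∫⁻ τ in T, ENNReal.ofReal ‖SS χ (M' c) (yM K (M' c) τ z) μ‖

open scoped Classical in
/-- (TV) the trivial bound. -/
def P_TV : Prop :=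
  ∀ n : ℕ, 0 < n → ∀ κ : ℝ, 0 < κ → κ ≤ 1 → ∃ C : ℝ, 1 ≤ C ∧ ∀ (K : Type) [Field K]
    [NumberField K], Module.finrank ℚ K = n → ∀ (f : Ideal (𝓞 K)), f ≠ ⊥ → ∀ (χ : HG K f)
    (ι : Type) [Fintype ι] (M : ι → FI K), Reps K M → ∀ (μ : InfinitePlace K → ℂ) (τ₁ : ℝ),
    Qk χ.k μ →
    ∑ c, ∫⁻ z in Fd K, ∫⁻ τ in Icc τ₁ (τ₁ + 1),
      ENNReal.ofReal ‖SS χ (M c) (yM K (M c) τ z) μ‖ ≤
      ENNReal.ofReal (C * Real.exp (-τ₁) ^ (1 + κ))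

/-- (ID) the number of the ideals. -/
def P_ID : Prop :=
  ∀ n : ℕ, 0 < n → ∀ ε : ℝ, 0 < ε → ε ≤ 1 / 4 → ∃ c : ℝ, 0 < c ∧ ∀ (K : Type) [Field K]
    [NumberField K], Module.finrank ℚ K = n → ∀ A : ℝ, |(discr K : ℝ)| ^ (1 / 2 + ε) ≤ A →
    c * (A ^ (1 - ε) * (classNumber K * regulator K) / Real.sqrt |(discr K : ℝ)|) ≤
      (({I : Ideal (𝓞 K) | I ≠ ⊥ ∧ (Ideal.absNorm I : ℝ) ≤ A}.ncard : ℕ) : ℝ)

/-- (IE) the multipliers. -/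
def P_IE : Prop :=
  ∀ n : ℕ, 0 < n → ∀ ε : ℝ, 0 < ε → ε ≤ 1 / 4 → ∃ c : ℝ, 0 < c ∧ ∀ (K : Type) [Field K]
    [NumberField K], Module.finrank ℚ K = n → ∀ (f : Ideal (𝓞 K)), f ≠ ⊥ → ∀ A : ℝ,
    |(discr K : ℝ)| ^ (1 / 2 + ε) ≤ A → ∃ (A' : ℝ) (S : Finset (Ideal (𝓞 K))), A' ≤ A ∧
      Mul f A' S ∧ c * (A * Nf K f) ^ (-ε) *
        (A * (classNumber K * regulator K) / Real.sqrt |(discr K : ℝ)|) ≤ S.card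

open scoped Classical in
/-- (WB) the bound for one window. -/
def P_WB : Prop :=
  ∀ n : ℕ, 0 < n → ∀ ε : ℝ, 0 < ε → ε ≤ 1 → ∃ C : ℝ, 1 ≤ C ∧ ∀ (K : Type) [Field K]
    [NumberField K], Module.finrank ℚ K = n → ∀ (f : Ideal (𝓞 K)), f ≠ ⊥ → ∀ (χ : HG K f),
    PrG f χ → ∀ (ι : Type) [Fintype ι] (M : ι → FI K), Reps K M →
    ∀ (μ : InfinitePlace K → ℂ) (τ₁ P X : ℝ), Qk χ.k μ → P = Nf K f * cK χ.k μ →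
    X = Real.exp (-τ₁) → |(discr K : ℝ)| ^ 4 ≤ P → |(discr K : ℝ)| * P ^ (3 / 8 : ℝ) ≤ X →
    ∑ c, ∫⁻ z in Fd K, ∫⁻ τ in Icc τ₁ (τ₁ + 1),
      ENNReal.ofReal ‖SS χ (M c) (yM K (M c) τ z) μ‖ ≤
      ENNReal.ofReal (C * (P * X) ^ ε * (|(discr K : ℝ)| ^ (1 / 2 : ℝ) * X ^ (1 / 2 : ℝ) *
        P ^ (3 / 16 : ℝ) * (1 + X ^ 2 / P ^ (5 / 4 : ℝ)) ^ (1 / 4 : ℝ)))

/-- (BP) the bound for the first sum. -/
def P_BP : Prop :=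
  ∀ n : ℕ, 0 < n → ∀ ε κ : ℝ, 0 < ε → ε ≤ 1 → 0 < κ → κ ≤ ε / 32 → ∃ C : ℝ, 0 ≤ C ∧
    ∀ (K : Type) [Field K] [NumberField K], Module.finrank ℚ K = n → ∀ f : Ideal (𝓞 K),
    f ≠ ⊥ → ∀ χ : HG K f, PrG f χ → ∀ (t B : ℝ) (v : ℝ → ℂ), 0 ≤ B →
    Wt κ (Real.sqrt (|(discr K : ℝ)| * Nf K f * Ci χ.k χ.ν t)) B v →
    ‖∑' J : NZI K, χ.ψ J.1 * v (Ideal.absNorm J.1) *
      (Ideal.absNorm J.1 : ℂ) ^ (-(t * I : ℂ))‖ ≤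
    C * B * (|(discr K : ℝ)| * Nf K f * Ci χ.k χ.ν t) ^ ε *
      (|(discr K : ℝ)| ^ (1 / 2 : ℝ) * (Nf K f * Ci χ.k χ.ν t) ^ (3 / 16 : ℝ))

/-- (WF) the hybrid bound of Burgess for the `L`-function. -/
def P_WF : Prop :=
  ∀ n : ℕ, 0 < n → ∀ ε : ℝ, 0 < ε → ∃ C : ℝ, ∀ (K : Type) [Field K] [NumberField K],
    Module.finrank ℚ K = n → ∀ f : Ideal (𝓞 K), f ≠ ⊥ → ∀ χ : HG K f, PrG f χ →
    ∀ (D : Sys K f) (L : ℂ → ℂ), IsL D χ L → ∀ t : ℝ, ‖L (1 / 2 + t * I)‖ ≤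
      C * (|(discr K : ℝ)| * Nf K f * Ci χ.k χ.ν t) ^ ε *
        (|(discr K : ℝ)| ^ (1 / 2 : ℝ) * (Nf K f * Ci χ.k χ.ν t) ^ (3 / 16 : ℝ))

end Pool.Agent.H29.BH
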