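import Pool.Agent.H29.BH.AllF
import Pool.Agent.H29.DW.All
import Pool.Agent.H77.BH.A_DR
import Pool.Agent.H77.BH.A_DC
import Pool.Agent.H77.BH.A_J
import Pool.Agent.H54.BH.N_DK
import Pool.Agent.H42.BH.A_I2
import Pool.Agent.H52.BH.A_IC
import Pool.Agent.H22.BH.N_HB
import Pool.Agent.H52.BH.A_IR
import Pool.Agent.H34.BH.A_PK
import Pool.Agent.H34.BH.F_1
import Pool.Agent.H56.BH.F_2
import Pool.Agent.H33.BH.F_3
import Pool.Agent.H68.BH.F_4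
import Pool.Agent.H68.BH.F_5
import Pool.Agent.H86.BH.F_6
import Pool.Agent.H59.BH.GS
import Pool.Agent.H18.BH.K_K4
import Pool.Agent.H35.BH.K_NB
import Pool.Agent.H48.BH.KNV
import Pool.Agent.H46.BH.K_UF
import Pool.Agent.H18.BH.M_4
import Pool.Agent.H89.BH.M_A
import Pool.Agent.H18.BH.M_C
import Pool.Agent.H69.BH.M_PI
import Pool.Agent.H49.BH.N_CA
import Pool.Agent.H86.BH.N_CB
import Pool.Agent.H18.BH.N_GC
import Pool.Agent.H20.BH.MT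
import Pool.Agent.H48.BH.S1
import Pool.Agent.H95.BH.N_SD
import Pool.Agent.H33.BH.N_SH
import Pool.Agent.H64.BH.PBP
import Pool.Agent.H70.BH.P_IE
import Pool.Agent.H64.BH.PIN
import Pool.Agent.H13.BH.P_IV
import Pool.Agent.H54.BH.P_MS
import Pool.Agent.H60.BH.PTV
import Pool.Agent.H92.BH.P_UR
import Pool.Agent.H69.BH.P_WB
import Pool.Agent.H69.BH.P_WF

/-!
# The hybrid bound of Burgess: assembly
-/

set_option autoImplicit false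

open NumberField NumberField.InfinitePlace Complex

namespace Pool.Agent.H29.BH.All

open Pool.Agent.H23.LB Pool.Agent.H23.LC Pool.Agent.H29.DW Pool.Agent.H29.DW.Base
open Pool.Agent.H29.DW.All Pool.Agent.H29.THC
open Pool.Agent.H29.THC.All (a_GX a_HR)
open Pool.Agent.H29.THC.Base (c_TH c_YC c_UI c_DU c_CT c_ID c_RX c_PU c_RR c_FP c_NS c_ME c_SY
  c_SE)

theorem b_PK : A_PK := Pool.Agent.H34.BH.pf_A_PK
theorem b_F1 : F_1 := Pool.Agent.H34.BH.pf_F_1 b_W4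
theorem b_F2 : F_2 := Pool.Agent.H56.BH.pf_F_2 b_PN b_LE b_LO b_RT b_RS
theorem b_F3 : F_3 := Pool.Agent.H33.BH.pf_F_3 b_F1 b_F2 b_CR b_AC
theorem b_F5 : F_5 := Pool.Agent.H68.BH.pf_F_5 Pool.Agent.H68.BH.pf_F_4 b_CR
theorem b_F6 : F_6 := Pool.Agent.H86.BH.pf_F_6 b_F3 b_F5 b_SG a_GX pf_DF u_CG
theorem b_NV : K_NV := Pool.Agent.H48.BH.pf_K_NV
theorem b_NB : K_NB := Pool.Agent.H35.BH.pf_K_NB b_NV
theorem b_GS : K_GS := Pool.Agent.H59.BH.pf_K_GS b_NV b_NB pf_DF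
theorem b_MA : M_A := Pool.Agent.H89.BH.pf_M_A Pool.Agent.H69.BH.pf_M_PI b_NV b_NB
theorem b_MC : M_C := Pool.Agent.H18.BH.pf_M_C b_NV b_NB b_GS Pool.Agent.H18.BH.pf_K_K4
theorem b_CA : N_CA := Pool.Agent.H49.BH.pf_N_CA b_NV b_NB
theorem b_GC : N_GC := Pool.Agent.H18.BH.pf_N_GC c_SE pf_DV pf_DF
theorem b_MT : N_MT := Pool.Agent.H20.BH.MT.pf_MT
theorem b_CB : N_CB := Pool.Agent.H86.BH.pf_N_CB b_CA b_GC b_MT
theorem b_S1 : N_S1 := Pool.Agent.H48.BH.pf_N_S1 b_NB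
theorem b_SH : N_SH := Pool.Agent.H33.BH.pf_N_SH u_CG
theorem b_DK : N_DK := Pool.Agent.H54.BH.pf_N_DK Pool.Agent.H77.BH.pf_A_DR Pool.Agent.H77.BH.pf_A_DC
theorem b_SD : N_SD := Pool.Agent.H95.BH.pf_N_SD b_S1 b_SH b_DK b_MT b_NB u_CG c_RX
theorem b_MS : P_MS := Pool.Agent.H54.BH.pf_P_MS b_NB c_YC b_PK
theorem b_IV : P_IV := Pool.Agent.H13.BH.pf_P_IV u_CG u_AG b_PK c_YC
theorem b_IN : P_IN := Pool.Agent.H64.BH.pf_P_IN u_CG u_AG b_NV b_NB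
theorem b_TV : P_TV := Pool.Agent.H60.BH.pf_P_TV b_PK c_SE u_VL u_CG
theorem b_UR : P_UR := Pool.Agent.H92.BH.pf_P_UR b_PK u_VL
theorem b_IE (hID : P_ID) : P_IE := Pool.Agent.H70.BH.pf_P_IE hID pf_DV
theorem b_J : A_J :=
  Pool.Agent.H77.BH.pf_A_J Pool.Agent.H52.BH.pf_A_IR Pool.Agent.H52.BH.pf_A_IC
    Pool.Agent.H42.BH.pf_A_I2
theorem b_M4 : M_4 := Pool.Agent.H18.BH.pf_M_4 b_MA b_MC b_J b_F6 b_NV c_RX u_CG
theorem b_HB : N_HB :=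
  Pool.Agent.H22.BH.pf_N_HB b_SD b_CB b_M4 Pool.Agent.H46.BH.pf_K_UF b_MT pf_DV
theorem b_WB (hID : P_ID) : P_WB :=
  Pool.Agent.H69.BH.pf_P_WB b_HB (b_IE hID) b_IV a_HR c_RR c_YC
theorem b_BP (hID : P_ID) : P_BP :=
  Pool.Agent.H64.BH.pf_P_BP b_UR b_IN (b_WB hID) b_TV b_MS b_NV c_SY
theorem b_WF (hID : P_ID) : P_WF :=
  Pool.Agent.H69.BH.pf_P_WF (b_BP hID) b_DU d_AE d_GH Pool.Agent.H63.HK.ds u_DC u_GE

end Pool.Agent.H29.BH.All
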