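import Pool.Agent.H29.DW.Base
import Pool.Agent.H23.BG.TargetsF
import Pool.Agent.H54.BG.W_W4
import Pool.Agent.H54.BG.W_W3
import Pool.Agent.H34.BG.SC
import Pool.Agent.H34.BG.HD
import Pool.Agent.H13.BR.NV
import Pool.Agent.H77.BG.W_EX
import Pool.Agent.H77.BG.W_ST
import Pool.Agent.H68.BG.W_NE
import Pool.Agent.H63.BG.W_EP
import Pool.Agent.H70.BG.W_EY
import Pool.Agent.H63.BG.W_LX
import Pool.Agent.H68.BG.W_VA
import Pool.Agent.H54.BG.W_AN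
import Pool.Agent.H20.BG.LS
import Pool.Agent.H53.BG.L_LE
import Pool.Agent.H20.BG.LO
import Pool.Agent.H48.BG.RT
import Pool.Agent.H23.BG.RS
import Pool.Agent.H53.BG.L_PN
import Pool.Agent.H19.BG.L_CR
import Pool.Agent.H49.BG.AC
import Pool.Agent.H28.BG.L_SG
import Pool.Agent.H26.BG.DU

/-!
# The hybrid bound of Burgess: closed facts on finite sums
-/

set_option autoImplicit false

open NumberField NumberField.InfinitePlace Complex

namespace Pool.Agent.H29.BH.All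

open Pool.Agent.H23.LB Pool.Agent.H23.LC Pool.Agent.H29.DW Pool.Agent.H29.DW.Base
open Pool.Agent.H23.BG
open Pool.Agent.H29.THC.Base (c_TH c_YC c_UI c_DU c_CT c_ID c_RX c_PU c_RR c_FP c_NS c_ME c_SY)

theorem b_EX : W_EX := Pool.Agent.H77.BG.pf_W_EX

theorem b_ST : W_ST :=
  Pool.Agent.H77.BG.pf_W_ST Pool.Agent.H34.BG.HD.pf_W_HD Pool.Agent.H13.BR.pf_W_NV b_EX
    Pool.Agent.H77.BG.pf_W_VZ

theorem b_SC : W_SC := Pool.Agent.H34.BG.SC.pf_W_SC b_ST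

theorem b_W3 : W_W3 :=
  Pool.Agent.H54.BG.pf_W_W3 b_SC Pool.Agent.H68.BG.pf_W_NE Pool.Agent.H63.BG.W_EP.pf_W_EP
    Pool.Agent.H70.BG.pf_W_EY Pool.Agent.H63.BG.W_LX.pf_W_LX Pool.Agent.H68.BG.pf_W_VA
    Pool.Agent.H54.BG.pf_W_AN

theorem b_W4 : W_W4 := Pool.Agent.H54.BG.pf_W_W4 b_W3

theorem b_LS : L_LS := Pool.Agent.H20.BG.LS.pf_LS

theorem b_LE : L_LE := Pool.Agent.H53.BG.pf_L_LE b_LS

theorem b_LO : L_LO := Pool.Agent.H20.BG.LO.pf_LO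

theorem b_RT : L_RT := Pool.Agent.H48.BG.pf_L_RT

theorem b_RS : L_RS := Pool.Agent.H23.BG.pf_RS

theorem b_PN : L_PN := Pool.Agent.H53.BG.pf_L_PN

theorem b_CR : L_CR := Pool.Agent.H23.BG.pf_L_CR

theorem b_AC : L_AC := Pool.Agent.H49.BG.pf_L_AC

theorem b_SG : L_SG := Pool.Agent.H28.BG.pf_L_SG u_AG

theorem b_DU : F_DU :=
  Pool.Agent.H26.BG.pf_F_DU u_AG c_PU c_ID c_DU c_RX c_RR u_DC

end Pool.Agent.H29.BH.All
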