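import Pool.Agent.H29.BH.Targets2

/-!
# The hybrid bound of Burgess: targets, part R (the power of the discriminant)
-/

set_option autoImplicit false

open NumberField NumberField.InfinitePlace NumberField.Units
  NumberField.Units.dirichletUnitTheorem MeasureTheory Set Filter Complex
open scoped nonZeroDivisors ENNReal

namespace Pool.Agent.H29.BH

open Pool.Agent.H25.HK Pool.Agent.H23.LB Pool.Agent.H23.LC Pool.Agent.H29.DW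
open Pool.Agent.H28.RC (Rep ft idl)
open Pool.Agent.H29.TC (dvs cq LC Gn MC)
open Pool.Agent.H23.BG (c4 al be ga Iso nrt c4M Ac)

section Defs

variable {K : Type} [Field K] [NumberField K]

open scoped Classical in
/-- the number of the points `h ≠ 0` of `L` with `|h|_v ≤ R_v` -/
noncomputable def cn (L : FI K) (y R : InfinitePlace K → ℝ) : ℝ≥0∞ :=
  ∑' h : K, if h ∈ L ∧ h ≠ 0 ∧ ∀ v, ‖sy y h v‖ ≤ R v then 1 else 0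

open scoped Classical in
/-- the weighted number of the points `h ≠ 0` of `L` with `|h|_v ≤ 1` -/
noncomputable def gs (f : Ideal (𝓞 K)) (L : FI K) (y : InfinitePlace K → ℝ) : ℝ≥0∞ :=
  ∑' h : K, if h ∈ L ∧ h ≠ 0 ∧ ∀ v, ‖sy y h v‖ ≤ 1 then
    ENNReal.ofReal (wf K f L h * nv y h ^ (-(3 / 4) : ℝ)) else 0

/-- functions of the position -/
structure IvF (Φ : FI K → (InfinitePlace K → ℝ) → ℝ≥0∞) : Prop where
  meas : ∀ M : FI K, M ≠ 0 → Measurable (fun q : ℝ × logSpace K => Φ M (yM K M q.1 q.2))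
  inv : ∀ (M : FI K) (y : InfinitePlace K → ℝ) (l : K), M ≠ 0 → l ≠ 0 →
    Φ (FractionalIdeal.spanSingleton (𝓞 K)⁰ l * M) y = Φ M (fun v => y v + 2 * Real.log (v l))

open scoped Classical in
/-- the integral over the positions -/
noncomputable def pint {ι : Type} [Fintype ι] (M : ι → FI K) (T : Set ℝ)
    (Φ : FI K → (InfinitePlace K → ℝ) → ℝ≥0∞) : ℝ≥0∞ :=
  ∑ c, ∫⁻ z in Fd K, ∫⁻ τ in T, Φ (M c) (yM K (M c) τ z)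

/-- the off-diagonal part of the second moment -/
noncomputable def od (f : Ideal (𝓞 K)) (S : Finset (Ideal (𝓞 K))) (R : InfinitePlace K → ℝ)
    (L : FI K) (y : InfinitePlace K → ℝ) : ℝ≥0∞ :=
  ∑ a ∈ S, ∑ b ∈ S, ENNReal.ofReal (Nf K (a ⊔ b)) *
    cn ((f : FI K) * (((a ⊓ b : Ideal (𝓞 K)) : FI K)⁻¹ * L)) y R

end Defs

/-- (GB) the sum of the norms of the greatest common divisors with one multiplier. -/
def R_GB : Prop :=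
  ∀ n : ℕ, 0 < n → ∀ ε : ℝ, 0 < ε → ε ≤ 1 → ∃ C : ℝ, 1 ≤ C ∧ ∀ (K : Type) [Field K]
    [NumberField K], Module.finrank ℚ K = n → ∀ (f : Ideal (𝓞 K)) (A : ℝ)
    (S : Finset (Ideal (𝓞 K))), Mul f A S → ∀ a ∈ S, ∑ b ∈ S, Nf K (a ⊔ b) ≤ C * A ^ (1 + ε)

/-- (IF) functions of the position. -/
def R_IF : Prop :=
  ∀ (K : Type) [Field K] [NumberField K] (f : Ideal (𝓞 K)), f ≠ ⊥ →
    IvF (fun L y => gs f L y) ∧
    (∀ (χ : HG K f) (μ : InfinitePlace K → ℂ), IvF (fun L y => ENNReal.ofReal ‖SS χ L y μ‖)) ∧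
    (∀ R : InfinitePlace K → ℝ, IvF (fun L y => cn L y R)) ∧
    ∀ (Φ : FI K → (InfinitePlace K → ℝ) → ℝ≥0∞) (j : FI K), j ≠ 0 → IvF Φ →
      IvF (fun L y => Φ (j * L) y)

open scoped Classical in
/-- (IG) invariance of the integral over the positions. -/
def R_IG : Prop :=
  ∀ (K : Type) [Field K] [NumberField K] (ι ι' : Type) [Fintype ι] [Fintype ι'] (M : ι → FI K)
    (M' : ι' → FI K), Reps K M → Reps K M' → ∀ Φ : FI K → (InfinitePlace K → ℝ) → ℝ≥0∞, IvF Φ →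
    (∀ T : Set ℝ, MeasurableSet T → pint M T Φ = pint M' T Φ) ∧
    ∀ (a : Ideal (𝓞 K)) (s t : ℝ), a ≠ ⊥ → pint M (Icc s t) Φ =
      pint M (Icc (s + Real.log (Nf K a)) (t + Real.log (Nf K a)))
        (fun L y => Φ ((a : FI K)⁻¹ * L) y)

/-- (MU) the weighted number of points for the multiples. -/
def R_MU : Prop :=
  ∀ n : ℕ, 0 < n → ∀ ε : ℝ, 0 < ε → ε ≤ 1 → ∃ C : ℝ, 1 ≤ C ∧ ∀ (K : Type) [Field K]
    [NumberField K], Module.finrank ℚ K = n → ∀ (f : Ideal (𝓞 K)) (A : ℝ)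
    (S : Finset (Ideal (𝓞 K))), f ≠ ⊥ → Mul f A S → ∀ (L : FI K) (y : InfinitePlace K → ℝ),
    L ≠ 0 → ∑ a ∈ S, gs f ((a : FI K) * L) y ≤ ENNReal.ofReal (C * bt L y ^ ε) * gs f L y

open scoped Classical in
/-- (C1) the first moments over the positions. -/
def R_C1 : Prop :=
  ∀ n : ℕ, 0 < n → ∀ κ : ℝ, 0 < κ → κ ≤ 1 → ∃ C : ℝ, 1 ≤ C ∧ ∀ (K : Type) [Field K]
    [NumberField K], Module.finrank ℚ K = n → ∀ (ι : Type) [Fintype ι] (M : ι → FI K),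
    Reps K M → ∀ τ₁ : ℝ,
    pint M (Icc τ₁ (τ₁ + 3)) (fun _ _ => 1) ≤
      ENNReal.ofReal (C * (classNumber K * regulator K)) ∧
    ∀ (j : FI K) (R : InfinitePlace K → ℝ), j ≠ 0 → (∀ v, 0 < R v) →
      pint M (Icc τ₁ (τ₁ + 3)) (fun L y => cn (j * L) y R) ≤
        ENNReal.ofReal (C * ((∏ v, R v ^ v.mult) * Real.exp (-τ₁) /
          (FractionalIdeal.absNorm j : ℝ)) ^ (1 + κ))

open scoped Classical in
/-- (G1) the first moment of the weighted number of points. -/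
def R_G1 : Prop :=
  ∀ n : ℕ, 0 < n → ∀ κ : ℝ, 0 < κ → κ ≤ 1 → ∃ C : ℝ, 1 ≤ C ∧ ∀ (K : Type) [Field K]
    [NumberField K], Module.finrank ℚ K = n → ∀ f : Ideal (𝓞 K), f ≠ ⊥ → ∀ (ι : Type)
    [Fintype ι] (M : ι → FI K), Reps K M → ∀ τ₁ : ℝ,
    pint M (Icc τ₁ (τ₁ + 3)) (fun L y => gs f L y) ≤
      ENNReal.ofReal (C * (dvs K f).card * Real.exp (-τ₁) ^ (1 + κ))

open scoped Classical in
/-- (MC) the sum over the quadruples. -/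
def R_MC : Prop :=
  ∀ n : ℕ, 0 < n → ∀ ε : ℝ, 0 < ε → ε ≤ 1 / 8 → ∃ C : ℝ, 1 ≤ C ∧ ∀ (K : Type) [Field K]
    [NumberField K], Module.finrank ℚ K = n → ∀ (f : Ideal (𝓞 K)) (L : FI K)
    (y : InfinitePlace K → ℝ) (Q : ℝ) (U : (Fin 4 → K) → ℝ), f ≠ ⊥ → L ≠ 0 → 1 ≤ Q →
    Ub f L y ε Q U →
    ∑' p : {x : K // x ∈ L}, ∑' q : {x : K // x ∈ L}, ∑' s : {x : K // x ∈ L},
      (if ∀ v, ‖sy y p.1 v‖ ≤ 1 / 4 ∧ ‖sy y q.1 v‖ ≤ 1 / 4 ∧ ‖sy y s.1 v‖ ≤ 1 / 4 then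
        ENNReal.ofReal (U (qd p.1 q.1 s.1)) else 0) ≤
      ENNReal.ofReal C * (ENNReal.ofReal (Nf K f) * (1 + gs f L y) +
        ENNReal.ofReal ((Nf K f / Q) ^ (1 / 2 : ℝ) * Q ^ ε) * (1 + gs f L y) ^ 3)

/-- (M4) the fourth moment. -/
def R_M4 : Prop :=
  ∀ n : ℕ, 0 < n → ∀ ε : ℝ, 0 < ε → ε ≤ 1 / 8 → ∃ C : ℝ, 1 ≤ C ∧ ∀ (K : Type) [Field K]
    [NumberField K], Module.finrank ℚ K = n → ∀ (f : Ideal (𝓞 K)), f ≠ ⊥ → ∀ (χ : HG K f),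
    PrG f χ → ∀ (L : FI K) (y : InfinitePlace K → ℝ) (F : Set (InfinitePlace K → ℂ))
    (μ : InfinitePlace K → ℂ) (B : ℝ) (A : InfinitePlace K → ℂ → ℂ → ℂ), L ≠ 0 →
    FS ((f : FI K) * L) y F → Qk χ.k μ → 1 ≤ B → Amp B A →
    ∫⁻ z, ∫⁻ ζ in F, ENNReal.ofReal (‖TT (cg χ L) L y (PhA χ.k μ A) ζ z‖ ^ 4) ∂mK K ∂mK K ≤
      ENNReal.ofReal (C * B ^ (4 * n) * (dvs K f).card ^ 2) *
        (ENNReal.ofReal (Nf K f) * (1 + gs f L y) +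
          ENNReal.ofReal ((Nf K f / cK χ.k μ) ^ (1 / 2 : ℝ) * cK χ.k μ ^ ε) *
            (1 + gs f L y) ^ 3)

/-- (CA) the mean values of the counting functions of two multipliers. -/
def R_CA : Prop :=
  ∀ n : ℕ, 0 < n → ∃ C : ℝ, 1 ≤ C ∧ ∀ (K : Type) [Field K] [NumberField K],
    Module.finrank ℚ K = n → ∀ (f a b : Ideal (𝓞 K)) (L : FI K) (y η : InfinitePlace K → ℝ)
    (F : Set (InfinitePlace K → ℂ)) (z : InfinitePlace K → ℂ), f ≠ ⊥ → a ≠ ⊥ → b ≠ ⊥ → L ≠ 0 →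
    FS ((f : FI K) * L) y F → (∀ v, 0 < η v) →
    ∫⁻ ζ in F, nA f L y η a ζ z * nA f L y η b ζ z ∂mK K ≤
      ENNReal.ofReal (C * (∏ v, η v ^ v.mult)) * (ENNReal.ofReal (Nf K (a ⊔ b)) *
        (1 + cn ((f : FI K) * (((a ⊓ b : Ideal (𝓞 K)) : FI K)⁻¹ * L)) y (fun v => 4 * η v)))

/-- (HP) the inequality of Hoelder for one position. -/
def R_HP : Prop :=
  ∀ n : ℕ, 0 < n → ∀ ε : ℝ, 0 < ε → ε ≤ 1 / 8 → ∃ C : ℝ, 1 ≤ C ∧ ∀ (K : Type) [Field K]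
    [NumberField K], Module.finrank ℚ K = n → ∀ (f : Ideal (𝓞 K)), f ≠ ⊥ → ∀ (χ : HG K f),
    PrG f χ → ∀ (L : FI K) (y : InfinitePlace K → ℝ) (μ : InfinitePlace K → ℂ) (A P : ℝ)
    (S E : Finset (Ideal (𝓞 K))), L ≠ 0 → Qk χ.k μ → Mul f A S → E ⊆ S →
    P = Nf K f * cK χ.k μ →
    ∑ a ∈ E, ENNReal.ofReal ‖SS χ ((a : FI K)⁻¹ * L) y μ‖ ≤
      ENNReal.ofReal (C * (A * P) ^ ε) * ENNReal.ofReal (E.card * A) ^ (1 / 2 : ℝ) *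
        (ENNReal.ofReal (E.card * A) +
          od f S (fun v => 1 / (4 * cc (χ.k v) (μ v))) L y) ^ (1 / 4 : ℝ) *
        (ENNReal.ofReal P * (1 + gs f L y) +
          ENNReal.ofReal (P ^ (1 / 2 : ℝ)) * (1 + gs f L y) ^ 3) ^ (1 / 4 : ℝ)

/-- the bound for one class of positions: `H` is the number of the positions, `s` the number of the
multipliers -/
noncomputable def Wb (H P X A s g K₁ : ℝ) : ℝ :=
  s⁻¹ * (s * A * min H (X / g)) ^ (1 / 2 : ℝ) *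
    (s * A * min H (X / g) + s ^ 2 * A * X / P) ^ (1 / 4 : ℝ) *
      (P * (1 + P ^ (-(1 / 2) : ℝ) * K₁ ^ 2) * (H + X / A)) ^ (1 / 4 : ℝ)

open scoped Classical in
/-- (WG) the bound for one class of positions. -/
def R_WG : Prop :=
  ∀ n : ℕ, 0 < n → ∀ ε : ℝ, 0 < ε → ε ≤ 1 → ∃ C : ℝ, 1 ≤ C ∧ ∀ (K : Type) [Field K]
    [NumberField K], Module.finrank ℚ K = n → ∀ (f : Ideal (𝓞 K)), f ≠ ⊥ → ∀ (χ : HG K f),
    PrG f χ → ∀ (ι : Type) [Fintype ι] (M : ι → FI K), Reps K M →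
    ∀ (μ : InfinitePlace K → ℂ) (τ₁ P X A g K₁ : ℝ) (S : Finset (Ideal (𝓞 K))), Qk χ.k μ →
    P = Nf K f * cK χ.k μ → X = Real.exp (-τ₁) → 1 ≤ X → Mul f A S → 1 ≤ g → 1 ≤ K₁ →
    C * X ^ ε * g ≤ K₁ * S.card →
    pint M (Icc τ₁ (τ₁ + 1)) (fun L y => if ENNReal.ofReal g ≤ 1 + gs f L y ∧
      1 + gs f L y < ENNReal.ofReal (2 * g) then ENNReal.ofReal ‖SS χ L y μ‖ else 0) ≤
      ENNReal.ofReal (C * (A * P * X) ^ ε *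
        Wb (classNumber K * regulator K) P X A S.card g K₁)

/-- the main term of the bound -/
noncomputable def Tb (d P : ℝ) : ℝ :=
  d ^ (1 / 4 : ℝ) * P ^ (3 / 16 : ℝ) + d ^ (1 / 3 : ℝ) * P ^ (1 / 6 : ℝ)

/-- (NU) the numerical inequality. -/
def R_NU : Prop :=
  ∀ (l d P X H g A K₁ s B : ℝ), 1 ≤ l → 1 ≤ d → d ≤ P → 1 ≤ X → 0 < H → 1 ≤ l * H →
    H ≤ l * d ^ (1 / 2 : ℝ) → 1 ≤ g → g ≤ l * X →
    A = l ^ 3 * max (g * d ^ (1 / 2 : ℝ) / (H * P ^ (1 / 4 : ℝ))) (d ^ (1 / 2 : ℝ)) →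
    0 < K₁ → K₁ ≤ l * P ^ (1 / 4 : ℝ) → A * H / (l * d ^ (1 / 2 : ℝ)) ≤ s →
    0 ≤ B → B ≤ l * X → B ≤ l * (X * H / d ^ (1 / 2 : ℝ) + d ^ (1 / 2 : ℝ)) →
    B ≤ l * Wb H P X A s g K₁ →
    B ≤ 16 * l ^ 12 * X ^ (1 / 2 : ℝ) * Tb d P * (1 + X / (d * P) ^ (1 / 2 : ℝ)) ^ (1 / 2 : ℝ)

open scoped Classical in
/-- (T2) the second trivial bound. -/
def R_T2 : Prop :=
  ∀ n : ℕ, 0 < n → ∀ κ : ℝ, 0 < κ → κ ≤ 1 → ∃ C : ℝ, 1 ≤ C ∧ ∀ (K : Type) [Field K]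
    [NumberField K], Module.finrank ℚ K = n → ∀ (f : Ideal (𝓞 K)), f ≠ ⊥ → ∀ (χ : HG K f)
    (ι : Type) [Fintype ι] (M : ι → FI K), Reps K M → ∀ (μ : InfinitePlace K → ℂ) (τ₁ X : ℝ),
    Qk χ.k μ → X = Real.exp (-τ₁) → 1 ≤ X →
    pint M (Icc τ₁ (τ₁ + 1)) (fun L y => ENNReal.ofReal ‖SS χ L y μ‖) ≤
      ENNReal.ofReal (C * (|(discr K : ℝ)| * X) ^ κ *
        (X * (classNumber K * regulator K) / Real.sqrt |(discr K : ℝ)| +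
          Real.sqrt |(discr K : ℝ)|))

open scoped Classical in
/-- (WB) the bound for one window. -/
def R_WB : Prop :=
  ∀ n : ℕ, 0 < n → ∀ ε : ℝ, 0 < ε → ε ≤ 1 → ∃ C : ℝ, 1 ≤ C ∧ ∀ (K : Type) [Field K]
    [NumberField K], Module.finrank ℚ K = n → ∀ (f : Ideal (𝓞 K)), f ≠ ⊥ → ∀ (χ : HG K f),
    PrG f χ → ∀ (ι : Type) [Fintype ι] (M : ι → FI K), Reps K M →
    ∀ (μ : InfinitePlace K → ℂ) (τ₁ P X : ℝ), Qk χ.k μ → P = Nf K f * cK χ.k μ →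
    X = Real.exp (-τ₁) → 1 ≤ X →
    pint M (Icc τ₁ (τ₁ + 1)) (fun L y => ENNReal.ofReal ‖SS χ L y μ‖) ≤
      ENNReal.ofReal (C * (|(discr K : ℝ)| * P * X) ^ ε * (X ^ (1 / 2 : ℝ) *
        Tb |(discr K : ℝ)| P * (1 + X / (|(discr K : ℝ)| * P) ^ (1 / 2 : ℝ)) ^ (1 / 2 : ℝ)))

/-- (BP) the bound for the first sum. -/
def R_BP : Prop :=
  ∀ n : ℕ, 0 < n → ∀ ε κ : ℝ, 0 < ε → ε ≤ 1 → 0 < κ → κ ≤ ε / 32 → ∃ C : ℝ, 0 ≤ C ∧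
    ∀ (K : Type) [Field K] [NumberField K], Module.finrank ℚ K = n → ∀ f : Ideal (𝓞 K),
    f ≠ ⊥ → ∀ χ : HG K f, PrG f χ → ∀ (t B : ℝ) (v : ℝ → ℂ), 0 ≤ B →
    Wt κ (Real.sqrt (|(discr K : ℝ)| * Nf K f * Ci χ.k χ.ν t)) B v →
    ‖∑' J : NZI K, χ.ψ J.1 * v (Ideal.absNorm J.1) *
      (Ideal.absNorm J.1 : ℂ) ^ (-(t * I : ℂ))‖ ≤
    C * B * (|(discr K : ℝ)| * Nf K f * Ci χ.k χ.ν t) ^ ε *
      Tb |(discr K : ℝ)| (Nf K f * Ci χ.k χ.ν t)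

/-- (WF) the bound for the `L`-function. -/
def R_WF : Prop :=
  ∀ n : ℕ, 0 < n → ∀ ε : ℝ, 0 < ε → ∃ C : ℝ, ∀ (K : Type) [Field K] [NumberField K],
    Module.finrank ℚ K = n → ∀ f : Ideal (𝓞 K), f ≠ ⊥ → ∀ χ : HG K f, PrG f χ →
    ∀ (D : Sys K f) (L : ℂ → ℂ), IsL D χ L → ∀ t : ℝ, ‖L (1 / 2 + t * I)‖ ≤
      C * (|(discr K : ℝ)| * Nf K f * Ci χ.k χ.ν t) ^ ε *
        Tb |(discr K : ℝ)| (Nf K f * Ci χ.k χ.ν t)

end Pool.Agent.H29.BH
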