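import Pool.Agent.H29.BH.Fin
import Pool.Agent.H29.BH.Targets3
import Pool.Agent.H34.BH.R_GB
import Pool.Agent.H92.BH.R_IF
import Pool.Agent.H92.BH.R_IG
import Pool.Agent.H33.BH.R_M4
import Pool.Agent.H86.BH.R_MC
import Pool.Agent.H77.BH.R_MU
import Pool.Agent.H91.BH.R_NU
import Pool.Agent.H13.BR.CB
import Pool.Agent.H95.BH.R_C1
import Pool.Agent.H1.BH.R_G1

/-!
# The second hybrid bound: assembly, first part
-/

set_option autoImplicit false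

open NumberField NumberField.InfinitePlace Complex

namespace Pool.Agent.H29.BH.AllR

open Pool.Agent.H23.LB Pool.Agent.H23.LC Pool.Agent.H29.DW Pool.Agent.H29.DW.Base
open Pool.Agent.H29.DW.All Pool.Agent.H29.THC Pool.Agent.H29.BH.All
open Pool.Agent.H29.THC.All (a_GX a_HR)
open Pool.Agent.H29.THC.Base (c_TH c_YC c_UI c_DU c_CT c_ID c_RX c_PU c_RR c_FP c_NS c_ME c_SY
  c_SE)

theorem r_GB : R_GB := Pool.Agent.H34.BH.pf_R_GB c_SE pf_DV pf_DF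
theorem r_MC : R_MC := Pool.Agent.H86.BH.pf_R_MC b_NV Pool.Agent.H18.BH.pf_K_K4
theorem r_M4 : R_M4 := Pool.Agent.H33.BH.pf_R_M4 b_MA r_MC b_J b_F6 c_RX u_CG
theorem r_MU : R_MU := Pool.Agent.H77.BH.pf_R_MU b_NV pf_DV pf_DF
theorem r_NU : R_NU := Pool.Agent.H91.BH.pf_R_NU
theorem r_IF : R_IF := Pool.Agent.H92.BH.pf_R_IF u_CG u_AG b_PK b_MS c_YC
theorem r_IG : R_IG := Pool.Agent.H92.BH.pf_R_IG c_RR c_YC
theorem r_CB : Pool.Agent.H23.BG.P_CB := Pool.Agent.H13.BR.pf_P_CB c_TH c_DU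
theorem r_C1 : R_C1 := Pool.Agent.H95.BH.pf_R_C1 d_CT r_CB c_RR
theorem r_G1 : R_G1 := Pool.Agent.H1.BH.pf_R_G1 r_C1 r_IF pf_DF

end Pool.Agent.H29.BH.AllR
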