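import Pool.Agent.H29.BH.AllRa
import Pool.Agent.H18.BH.R_CA
import Pool.Agent.H22.BH.R_HP
import Pool.Agent.H29.BH.RWF

/-!
# The second hybrid bound: assembly, second part
-/

set_option autoImplicit false

open NumberField NumberField.InfinitePlace Complex

namespace Pool.Agent.H29.BH.AllR

open Pool.Agent.H23.LB Pool.Agent.H23.LC Pool.Agent.H29.DW Pool.Agent.H29.DW.Base
open Pool.Agent.H29.DW.All Pool.Agent.H29.THC Pool.Agent.H29.BH.All
open Pool.Agent.H29.THC.All (a_GX a_HR)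
open Pool.Agent.H29.THC.Base (c_TH c_YC c_UI c_DU c_CT c_ID c_RX c_PU c_RR c_FP c_NS c_ME c_SY
  c_SE)

theorem r_CA : R_CA := Pool.Agent.H18.BH.pf_R_CA
theorem r_HP : R_HP :=
  Pool.Agent.H22.BH.pf_R_HP b_SD b_CA r_CA r_GB r_M4 Pool.Agent.H46.BH.pf_K_UF b_MT pf_DV
theorem r_WF (hBP : R_BP) : R_WF :=
  RWF.pf_R_WF hBP b_DU d_AE d_GH Pool.Agent.H63.HK.ds u_DC u_GE

end Pool.Agent.H29.BH.AllR
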