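import Pool.Agent.H29.BH.AllRc
import Pool.Agent.H48.BH.T2
import Pool.Agent.H54.BHR.R_WB

/-!
# The second hybrid bound: assembly, fourth part
-/

set_option autoImplicit false

open NumberField NumberField.InfinitePlace Complex

namespace Pool.Agent.H29.BH.AllR

open Pool.Agent.H23.LB Pool.Agent.H23.LC Pool.Agent.H29.DW Pool.Agent.H29.DW.Base
open Pool.Agent.H29.DW.All Pool.Agent.H29.THC Pool.Agent.H29.BH.All
open Pool.Agent.H29.THC.All (a_GX a_HR)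
open Pool.Agent.H29.THC.Base (c_TH c_YC c_UI c_DU c_CT c_ID c_RX c_PU c_RR c_FP c_NS c_ME c_SY
  c_SE)

theorem r_T2 : R_T2 :=
  Pool.Agent.H48.BH.pf_R_T2 r_CB d_CT r_C1 c_RR c_TH c_DU c_YC c_UI u_ZN b_PK u_CG

theorem r_WB : R_WB :=
  Pool.Agent.H54.BHR.pf_R_WB r_WG r_NU r_T2 b_TV (b_IE b_ID) b_GS b_NV a_HR pf_DV r_IF b_UR b_NB
    b_PK c_RR

end Pool.Agent.H29.BH.AllR
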