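import Pool.Agent.H23.BG.Stmt

/-!
# Abbreviations for the statement of the hybrid bound of Burgess
-/

set_option autoImplicit false

open NumberField NumberField.InfinitePlace NumberField.Units MeasureTheory Set Filter Complex

namespace Pool.Agent.H29.BH

open Pool.Agent.H23.LC Pool.Agent.H29.DW

section

variable {K : Type} [Field K] [NumberField K]

/-- `|d_K|^(1/4) P^(3/16) + |d_K|^(1/3) P^(1/6)`, where `P = N(f) C_∞` -/
noncomputable def HybridBound {f : Ideal (𝓞 K)} (χ : HG K f) (t : ℝ) : ℝ :=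
  |(discr K : ℝ)| ^ (1 / 4 : ℝ) * (Ideal.absNorm f * Ci χ.k χ.ν t) ^ (3 / 16 : ℝ) +
    |(discr K : ℝ)| ^ (1 / 3 : ℝ) * (Ideal.absNorm f * Ci χ.k χ.ν t) ^ (1 / 6 : ℝ)

end

end Pool.Agent.H29.BH
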