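import Pool.Agent.H29.BH.Targets3
import Pool.Agent.H29.BH.Stmt
import Pool.Agent.H26.BG.WB

/-!
# Three subconvex bounds for the same `L`-function
-/

set_option autoImplicit false

open NumberField NumberField.InfinitePlace Complex

namespace Pool.Agent.H29.BH

open Pool.Agent.H23.LB Pool.Agent.H23.LC Pool.Agent.H29.DW Pool.Agent.H26.BG
open Pool.Agent.H23.BG (F_WB F_WD BurgessBound UniformBound)

/-- the final bound -/
def Fin3 : Prop :=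
  ∀ m : ℕ, 1 ≤ m → ∀ ε : ℝ, 0 < ε → ∃ C : ℝ, ∀ (K : Type) [Field K] [NumberField K],
    Module.finrank ℚ K = m → ∀ f : Ideal (𝓞 K), f ≠ ⊥ → ∀ χ : HG K f, PrG f χ →
    ∃ L : ℂ → ℂ, IsCon χ L ∧ ∀ t : ℝ, ‖L (1 / 2 + t * I)‖ ≤ C * Cond χ t ^ ε *
      min (min (BurgessBound χ t) (UniformBound χ t)) (HybridBound χ t)

theorem pf_Fin3 (hWB : F_WB) (hWD : F_WD) (hWF : R_WF) (hSY : T_SY) (hFK : U_FK) : Fin3 := by
  intro n hn0 ε hε
  obtain ⟨C₁, h₁⟩ := hWB n hn0 ε hε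
  obtain ⟨C₂, h₂⟩ := hWD n hn0 ε hε
  obtain ⟨C₃, h₃⟩ := hWF n hn0 ε hε
  set C : ℝ := max 0 (max C₃ (max C₁ C₂)) with hC
  refine ⟨C, ?_⟩
  intro K _ _ hn f hf χ hχ
  obtain ⟨D⟩ := hSY K f hf
  obtain ⟨L, hL, hent⟩ := hFK K f hf D χ
  refine ⟨L, ⟨hL.1, hL.2.1, hent⟩, fun t => ?_⟩
  have hQ1 := one_le_cond hf χ.k χ.ν t
  have hd1 := one_le_discr (K := K)
  have hNf1 := one_le_Nf hf
  have hCi1 := one_le_Ci χ.k χ.ν t
  have hN0 : 0 < Nf K f := by linarith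
  have hC0 : 0 < Ci χ.k χ.ν t := by linarith
  have hm0 : 0 ≤ C := le_max_left _ _
  have hm1 : C₁ ≤ C := ((le_max_left _ _).trans (le_max_right _ _)).trans (le_max_right _ _)
  have hm2 : C₂ ≤ C := ((le_max_right _ _).trans (le_max_right _ _)).trans (le_max_right _ _)
  have hm3 : C₃ ≤ C := (le_max_left _ _).trans (le_max_right _ _)
  have hA : 0 ≤ C * Cond χ t ^ ε := by
    have : 0 ≤ Cond χ t := by
      change 0 ≤ |(discr K : ℝ)| * Nf K f * Ci χ.k χ.ν t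
      linarith
    positivity
  have a1 : ‖L (1 / 2 + t * I)‖ ≤ C * Cond χ t ^ ε * BurgessBound χ t := by
    have h := h₁ K hn f hf χ hχ D L hL t
    change _ ≤ C * (|(discr K : ℝ)| * Nf K f * Ci χ.k χ.ν t) ^ ε *
      (|(discr K : ℝ)| ^ (1 / 4 : ℝ) * Ci χ.k χ.ν t ^ (1 / 4 : ℝ) *
        Nf K f ^ (1 / 4 - 1 / (16 * (Module.finrank ℚ K : ℝ))))
    rw [hn]
    refine h.trans ?_
    gcongr
  have a2 : ‖L (1 / 2 + t * I)‖ ≤ C * Cond χ t ^ ε *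
        (|(discr K : ℝ)| ^ (1 / 4 : ℝ) * (Nf K f ^ (1 / 2 : ℝ) *
          Ci χ.k χ.ν t ^ (1 / 6 : ℝ))) := by
    have h := h₂ K hn f hf χ hχ D L hL t
    rw [← mul_assoc (|(discr K : ℝ)| ^ (1 / 4 : ℝ))]
    refine h.trans ?_
    change _ ≤ C * (|(discr K : ℝ)| * Nf K f * Ci χ.k χ.ν t) ^ ε * _
    gcongr
  have a3 : ‖L (1 / 2 + t * I)‖ ≤ C * Cond χ t ^ ε * HybridBound χ t := by
    have h := h₃ K hn f hf χ hχ D L hL t
    refine h.trans ?_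
    change _ ≤ C * (|(discr K : ℝ)| * Nf K f * Ci χ.k χ.ν t) ^ ε *
      Tb |(discr K : ℝ)| (Nf K f * Ci χ.k χ.ν t)
    have hT : 0 ≤ Tb |(discr K : ℝ)| (Nf K f * Ci χ.k χ.ν t) := by
      unfold Tb
      positivity
    gcongr
  have h3 := min_bound n hn0 (Nf K f) (Ci χ.k χ.ν t) hNf1 hCi1
  have hd0 : 0 ≤ |(discr K : ℝ)| ^ (1 / 4 : ℝ) := by positivity
  have a4 : ‖L (1 / 2 + t * I)‖ ≤ C * Cond χ t ^ ε * UniformBound χ t := by
    have hU : UniformBound χ t = |(discr K : ℝ)| ^ (1 / 4 : ℝ) *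
        (Nf K f * Ci χ.k χ.ν t) ^ (1 / 4 - 1 / (64 * (n : ℝ) + 12)) := by
      unfold UniformBound
      rw [hn]
      rfl
    have hB : BurgessBound χ t = |(discr K : ℝ)| ^ (1 / 4 : ℝ) * (Ci χ.k χ.ν t ^ (1 / 4 : ℝ) *
        Nf K f ^ (1 / 4 - 1 / (16 * (n : ℝ)))) := by
      unfold BurgessBound
      rw [hn, mul_assoc]
      rfl
    rw [hU]
    rcases min_le_iff.1 h3 with h4 | h4
    · rw [hB] at a1
      exact a1.trans (mul_le_mul_of_nonneg_left (mul_le_mul_of_nonneg_left h4 hd0) hA)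
    · exact a2.trans (mul_le_mul_of_nonneg_left (mul_le_mul_of_nonneg_left h4 hd0) hA)
  rcases min_choice (min (BurgessBound χ t) (UniformBound χ t)) (HybridBound χ t) with h | h
  · rw [h]
    rcases min_choice (BurgessBound χ t) (UniformBound χ t) with h' | h'
    · rw [h']
      exact a1
    · rw [h']
      exact a4
  · rw [h]
    exact a3

end Pool.Agent.H29.BH
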