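import Mathlib

/-!
# The inequality for one window, second form
-/

set_option autoImplicit false

namespace Pool.Agent.H29.BH.KeyR

/-- The main term. -/
noncomputable def Tc (d P : ℝ) : ℝ :=
  d ^ (1 / 4 : ℝ) * P ^ (3 / 16 : ℝ) + d ^ (1 / 3 : ℝ) * P ^ (1 / 6 : ℝ)

private lemma half {y : ℝ} (hy : 0 ≤ y) :
    (1 + y) ^ (1 / 2 : ℝ) ≤ 1 + y ^ (1 / 2 : ℝ) := by
  have h1 : y = (y ^ (1 / 2 : ℝ)) ^ (2 : ℕ) := by
    rw [← Real.rpow_natCast, ← Real.rpow_mul hy]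
    norm_num
  have h2 : 0 ≤ y ^ (1 / 2 : ℝ) := Real.rpow_nonneg hy _
  rw [← Real.sqrt_eq_rpow (1 + y)]
  refine Real.sqrt_le_iff.2 ⟨by positivity, ?_⟩
  set a := y ^ (1 / 2 : ℝ) with ha
  rw [h1]
  nlinarith

private lemma Tc_le {d P P0 V : ℝ} (hd : 1 ≤ d) (hP : 0 ≤ P) (hP0 : 1 ≤ P0) (hV : 1 ≤ V)
    (h : P ≤ V * P0) : Tc d P ≤ V * Tc d P0 := by
  unfold Tc
  have h1 : ∀ s : ℝ, 0 < s → s ≤ 1 → P ^ s ≤ V * P0 ^ s := by
    intro s hs hs1
    calc P ^ s ≤ (V * P0) ^ s := Real.rpow_le_rpow hP h hs.le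
      _ = V ^ s * P0 ^ s := Real.mul_rpow (by linarith) (by linarith)
      _ ≤ V ^ (1 : ℝ) * P0 ^ s := by
        gcongr
      _ = _ := by rw [Real.rpow_one]
  have h2 := h1 (3 / 16) (by norm_num) (by norm_num)
  have h3 := h1 (1 / 6) (by norm_num) (by norm_num)
  calc d ^ (1 / 4 : ℝ) * P ^ (3 / 16 : ℝ) + d ^ (1 / 3 : ℝ) * P ^ (1 / 6 : ℝ) ≤
      d ^ (1 / 4 : ℝ) * (V * P0 ^ (3 / 16 : ℝ)) + d ^ (1 / 3 : ℝ) * (V * P0 ^ (1 / 6 : ℝ)) := by
        gcongr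
    _ = _ := by ring

/-- The inequality for one window. -/
theorem window {n : ℕ} {d P0 P X κ e w CT CW U : ℝ} (hd : 1 ≤ d) (hP0 : 1 ≤ P0) (hP : 1 ≤ P)
    (hU : 1 ≤ U) (h1 : P ≤ 2 ^ n * U * P0) (h2 : P0 ≤ U * P) (hκ : 0 < κ) (he : 0 < e)
    (hκe : κ + e ≤ 1 / 4) (hX : Real.exp (-n) ≤ X) (hCT : 0 ≤ CT) (hCW : 0 ≤ CW)
    (hTV : w ≤ CT * X ^ (1 + κ))
    (hWB : 1 ≤ X → w ≤ CW * (d * P * X) ^ e *
      (X ^ (1 / 2 : ℝ) * Tc d P * (1 + X / (d * P) ^ (1 / 2 : ℝ)) ^ (1 / 2 : ℝ))) :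
    Real.sqrt (d * P0) ^ (if X ≤ Real.sqrt (d * P0) then κ else 1) *
      X ^ (-(1 / 2 + (if X ≤ Real.sqrt (d * P0) then κ else 1))) * w ≤
    (CT + 2 * CW) * (Real.exp n * U) ^ 3 * (Real.sqrt (d * P0) ^ κ *
      (d * P0 * Real.sqrt (d * P0)) ^ e * Tc d P0) * (Real.sqrt (d * P0) / X) ^ e := by
  have hT1 : 1 ≤ Tc d P0 := by
    unfold Tc
    have : 1 ≤ d ^ (1 / 4 : ℝ) * P0 ^ (3 / 16 : ℝ) :=
      one_le_mul_of_one_le_of_one_le (Real.one_le_rpow hd (by norm_num))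
        (Real.one_le_rpow hP0 (by norm_num))
    have h3 : 0 ≤ d ^ (1 / 3 : ℝ) * P0 ^ (1 / 6 : ℝ) := by positivity
    linarith
  have hV1 : 1 ≤ Real.exp n * U :=
    one_le_mul_of_one_le_of_one_le (Real.one_le_exp (Nat.cast_nonneg n)) hU
  have hexp : (2 : ℝ) ^ n ≤ Real.exp n := by
    rw [← Real.exp_one_pow]
    exact pow_le_pow_left₀ (by norm_num) (by linarith [Real.exp_one_gt_d9]) n
  have hPV : P ≤ (Real.exp n * U) * P0 := by
    refine h1.trans ?_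
    gcongr
  obtain ⟨V, hV⟩ : ∃ V, V = Real.exp n * U := ⟨_, rfl⟩
  rw [← hV] at hV1 hPV ⊢
  have hTP : Tc d P ≤ V * Tc d P0 := Tc_le hd (by linarith) hP0 hV1 hPV
  have hUV : U ≤ V := by
    rw [hV]
    exact le_mul_of_one_le_left (by linarith) (Real.one_le_exp (Nat.cast_nonneg n))
  have hX00 : 0 < X := lt_of_lt_of_le (Real.exp_pos _) hX
  have hdP0 : 1 ≤ d * P0 := one_le_mul_of_one_le_of_one_le hd hP0
  have hdP : 1 ≤ d * P := one_le_mul_of_one_le_of_one_le hd hP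
  obtain ⟨Z, hZ⟩ : ∃ Z, Z = Real.sqrt (d * P0) := ⟨_, rfl⟩
  have hZ1 : 1 ≤ Z := by
    rw [hZ]
    exact Real.one_le_sqrt.2 hdP0
  have hZsq : Z ^ 2 = d * P0 := by
    rw [hZ]
    exact Real.sq_sqrt (by linarith)
  rw [← hZ]
  have hZ0 : 0 < Z := by linarith
  have hV3 : 1 ≤ V ^ 3 := one_le_pow₀ hV1
  have hD1 : 1 ≤ (d * P0 * Z) ^ e :=
    Real.one_le_rpow (one_le_mul_of_one_le_of_one_le hdP0 hZ1) he.le
  have hZκ : 0 < Z ^ κ := Real.rpow_pos_of_pos hZ0 _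
  rcases lt_or_ge X 1 with hX1 | hX1
  · -- small `X`
    have hXZ : X ≤ Z := by linarith
    rw [if_pos hXZ]
    have h5 : 1 ≤ (Z / X) ^ e := by
      refine Real.one_le_rpow ?_ he.le
      rw [one_le_div hX00]
      exact hXZ
    calc Z ^ κ * X ^ (-(1 / 2 + κ)) * w ≤ Z ^ κ * X ^ (-(1 / 2 + κ)) * (CT * X ^ (1 + κ)) := by
          gcongr
      _ = CT * (Z ^ κ * X ^ (1 / 2 : ℝ)) := by
          have : X ^ (-(1 / 2 + κ)) * X ^ (1 + κ) = X ^ (1 / 2 : ℝ) := by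
            rw [← Real.rpow_add hX00]
            congr 1
            ring
          rw [← this]
          ring
      _ ≤ CT * (Z ^ κ * 1) := by
          gcongr
          exact Real.rpow_le_one hX00.le hX1.le (by norm_num)
      _ = CT * 1 * (Z ^ κ * 1 * 1) * 1 := by ring
      _ ≤ (CT + 2 * CW) * V ^ 3 * (Z ^ κ * (d * P0 * Z) ^ e * Tc d P0) * (Z / X) ^ e := by
          have : CT ≤ CT + 2 * CW := by linarith
          gcongr
  · -- large `X`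
    have hw := hWB hX1
    have hDP0 : 0 < d * P := by linarith
    have hXZ0 : 0 < X / Z := div_pos hX00 hZ0
    -- the comparison of `X` and `(dP)^(1/2)`
    have hroot : Z ^ (1 / 2 : ℝ) ≤ V * (d * P) ^ (1 / 4 : ℝ) := by
      have h6 : Z ≤ V ^ 2 * (d * P) ^ (1 / 2 : ℝ) := by
        have h7 : Z = (d * P0) ^ (1 / 2 : ℝ) := by rw [hZ, Real.sqrt_eq_rpow]
        have h8 : d * P0 ≤ V ^ 4 * (d * P) := by
          calc d * P0 ≤ d * (U * P) := by gcongr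
            _ = U * (d * P) := by ring
            _ ≤ V ^ 4 * (d * P) := by
              have : U ≤ V ^ 4 := hUV.trans (le_self_pow₀ hV1 (by norm_num))
              gcongr
        calc Z = (d * P0) ^ (1 / 2 : ℝ) := h7
          _ ≤ (V ^ 4 * (d * P)) ^ (1 / 2 : ℝ) := by gcongr
          _ = (V ^ 4) ^ (1 / 2 : ℝ) * (d * P) ^ (1 / 2 : ℝ) :=
              Real.mul_rpow (by positivity) hDP0.le
          _ = V ^ 2 * (d * P) ^ (1 / 2 : ℝ) := by
              congr 1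
              rw [← Real.rpow_natCast V 4, ← Real.rpow_mul (by linarith), ← Real.rpow_natCast V 2]
              norm_num
      calc Z ^ (1 / 2 : ℝ) ≤ (V ^ 2 * (d * P) ^ (1 / 2 : ℝ)) ^ (1 / 2 : ℝ) := by gcongr
        _ = (V ^ 2) ^ (1 / 2 : ℝ) * ((d * P) ^ (1 / 2 : ℝ)) ^ (1 / 2 : ℝ) :=
            Real.mul_rpow (by positivity) (by positivity)
        _ = V * (d * P) ^ (1 / 4 : ℝ) := by
            rw [← Real.rpow_natCast V 2, ← Real.rpow_mul (by linarith), ← Real.rpow_mul hDP0.le]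
            norm_num
    have hDe : (d * P * X) ^ e ≤ V * ((d * P0 * Z) ^ e * (X / Z) ^ e) := by
      calc (d * P * X) ^ e ≤ (V * (d * P0 * Z * (X / Z))) ^ e := by
            refine Real.rpow_le_rpow (by positivity) ?_ he.le
            have h9 : d * P0 * Z * (X / Z) = d * P0 * X := by field_simp
            rw [h9]
            calc d * P * X ≤ d * (V * P0) * X := by gcongr
              _ = _ := by ring
        _ = V ^ e * ((d * P0 * Z) ^ e * (X / Z) ^ e) := by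
            rw [Real.mul_rpow (by linarith) (by positivity),
              Real.mul_rpow (by positivity) (by positivity)]
        _ ≤ V ^ (1 : ℝ) * ((d * P0 * Z) ^ e * (X / Z) ^ e) := by
            gcongr
            linarith
        _ = _ := by rw [Real.rpow_one]
    have hy : (1 + X / (d * P) ^ (1 / 2 : ℝ)) ^ (1 / 2 : ℝ) ≤
        V * (1 + (X / Z) ^ (1 / 2 : ℝ)) := by
      have h6 : (X / (d * P) ^ (1 / 2 : ℝ)) ^ (1 / 2 : ℝ) ≤ V * (X / Z) ^ (1 / 2 : ℝ) := by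
        rw [Real.div_rpow hX00.le (by positivity), Real.div_rpow hX00.le hZ0.le,
          ← Real.rpow_mul hDP0.le]
        have h7 : 0 < (d * P) ^ ((1 / 2 : ℝ) * (1 / 2)) := Real.rpow_pos_of_pos hDP0 _
        have h8 : 0 < Z ^ (1 / 2 : ℝ) := Real.rpow_pos_of_pos hZ0 _
        rw [div_le_iff₀ h7]
        have h9 : V * (X ^ (1 / 2 : ℝ) / Z ^ (1 / 2 : ℝ)) * (d * P) ^ ((1 / 2 : ℝ) * (1 / 2)) =
            X ^ (1 / 2 : ℝ) * ((V * (d * P) ^ (1 / 4 : ℝ)) / Z ^ (1 / 2 : ℝ)) := by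
          norm_num
          ring
        rw [h9]
        refine le_mul_of_one_le_right (by positivity) ?_
        rw [one_le_div h8]
        exact hroot
      calc (1 + X / (d * P) ^ (1 / 2 : ℝ)) ^ (1 / 2 : ℝ) ≤
          1 + (X / (d * P) ^ (1 / 2 : ℝ)) ^ (1 / 2 : ℝ) := half (by positivity)
        _ ≤ V * 1 + V * (X / Z) ^ (1 / 2 : ℝ) := by
            refine add_le_add ?_ h6
            linarith
        _ = _ := by ring
    have hTc0 : 0 ≤ Tc d P := by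
      unfold Tc
      positivity
    have hw2 : w ≤ CW * (V * ((d * P0 * Z) ^ e * (X / Z) ^ e)) *
        (X ^ (1 / 2 : ℝ) * (V * Tc d P0) * (V * (1 + (X / Z) ^ (1 / 2 : ℝ)))) := by
      refine hw.trans ?_
      gcongr
    -- the exponents
    have key : Z ^ (if X ≤ Z then κ else 1) * X ^ (-(1 / 2 + (if X ≤ Z then κ else 1))) *
        (X ^ (1 / 2 : ℝ) * ((X / Z) ^ e * (1 + (X / Z) ^ (1 / 2 : ℝ)))) ≤
        2 * Z ^ κ * (Z / X) ^ e := by
      have hq : Z / X = (X / Z)⁻¹ := by rw [inv_div]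
      obtain ⟨q, hqd⟩ : ∃ q, q = X / Z := ⟨_, rfl⟩
      have hq0 : 0 < q := by rw [hqd]; exact hXZ0
      have hXq : X = q * Z := by rw [hqd]; field_simp
      rw [hq, ← hqd]
      split_ifs with hc
      · have hq1 : q ≤ 1 := by
          rw [hqd, div_le_one hZ0]
          exact hc
        have e1 : X ^ (-(1 / 2 + κ)) * X ^ (1 / 2 : ℝ) = X ^ (-κ) := by
          rw [← Real.rpow_add hX00]
          congr 1
          ring
        have e2 : X ^ (-κ) ≤ 1 := Real.rpow_le_one_of_one_le_of_nonpos hX1 (by linarith)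
        have e3 : q ^ e ≤ 1 := Real.rpow_le_one hq0.le hq1 he.le
        have e4 : q ^ (1 / 2 : ℝ) ≤ 1 := Real.rpow_le_one hq0.le hq1 (by norm_num)
        have e5 : 1 ≤ q⁻¹ ^ e := Real.one_le_rpow ((one_le_inv₀ hq0).2 hq1) he.le
        calc Z ^ κ * X ^ (-(1 / 2 + κ)) * (X ^ (1 / 2 : ℝ) * (q ^ e * (1 + q ^ (1 / 2 : ℝ)))) =
            Z ^ κ * (X ^ (-(1 / 2 + κ)) * X ^ (1 / 2 : ℝ)) * (q ^ e * (1 + q ^ (1 / 2 : ℝ))) := by
              ring
          _ = Z ^ κ * X ^ (-κ) * (q ^ e * (1 + q ^ (1 / 2 : ℝ))) := by rw [e1]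
          _ ≤ Z ^ κ * 1 * (1 * (1 + 1)) := by gcongr
          _ = 2 * Z ^ κ * 1 := by ring
          _ ≤ 2 * Z ^ κ * q⁻¹ ^ e := by gcongr
      · have hq1 : 1 ≤ q := by
          rw [hqd, one_le_div hZ0]
          exact (not_le.1 hc).le
        have e1 : Z ^ (1 : ℝ) * X ^ (-(1 / 2 + 1) : ℝ) * X ^ (1 / 2 : ℝ) = q ^ (-1 : ℝ) := by
          rw [mul_assoc, ← Real.rpow_add hX00, hXq, Real.mul_rpow hq0.le hZ0.le]
          have : Z ^ (1 : ℝ) * Z ^ (-(1 / 2 + 1) + 1 / 2 : ℝ) = 1 := by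
            rw [← Real.rpow_add hZ0]
            norm_num
          calc Z ^ (1 : ℝ) * (q ^ (-(1 / 2 + 1) + 1 / 2 : ℝ) * Z ^ (-(1 / 2 + 1) + 1 / 2 : ℝ)) =
              q ^ (-(1 / 2 + 1) + 1 / 2 : ℝ) * (Z ^ (1 : ℝ) * Z ^ (-(1 / 2 + 1) + 1 / 2 : ℝ)) := by
                ring
            _ = _ := by
                rw [this, mul_one]
                norm_num
        have e2 : 1 + q ^ (1 / 2 : ℝ) ≤ 2 * q ^ (1 / 2 : ℝ) := by
          have := Real.one_le_rpow hq1 (by norm_num : (0 : ℝ) ≤ 1 / 2)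
          linarith
        have e3 : 1 ≤ Z ^ κ := Real.one_le_rpow hZ1 hκ.le
        calc Z ^ (1 : ℝ) * X ^ (-(1 / 2 + 1) : ℝ) *
              (X ^ (1 / 2 : ℝ) * (q ^ e * (1 + q ^ (1 / 2 : ℝ)))) =
            (Z ^ (1 : ℝ) * X ^ (-(1 / 2 + 1) : ℝ) * X ^ (1 / 2 : ℝ)) *
              (q ^ e * (1 + q ^ (1 / 2 : ℝ))) := by ring
          _ = q ^ (-1 : ℝ) * (q ^ e * (1 + q ^ (1 / 2 : ℝ))) := by rw [e1]
          _ ≤ q ^ (-1 : ℝ) * (q ^ e * (2 * q ^ (1 / 2 : ℝ))) := by gcongr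
          _ = 2 * q ^ (-1 + e + 1 / 2) := by
              rw [Real.rpow_add hq0, Real.rpow_add hq0]
              ring
          _ ≤ 2 * q ^ (-e) := by
              gcongr
              linarith
          _ = 2 * 1 * q⁻¹ ^ e := by
              rw [Real.rpow_neg hq0.le, Real.inv_rpow hq0.le]
              ring
          _ ≤ 2 * Z ^ κ * q⁻¹ ^ e := by gcongr
    have hpre : 0 ≤ Z ^ (if X ≤ Z then κ else 1) *
        X ^ (-(1 / 2 + (if X ≤ Z then κ else 1))) := by positivity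
    calc Z ^ (if X ≤ Z then κ else 1) * X ^ (-(1 / 2 + (if X ≤ Z then κ else 1))) * w ≤
        Z ^ (if X ≤ Z then κ else 1) * X ^ (-(1 / 2 + (if X ≤ Z then κ else 1))) *
        (CW * (V * ((d * P0 * Z) ^ e * (X / Z) ^ e)) *
        (X ^ (1 / 2 : ℝ) * (V * Tc d P0) * (V * (1 + (X / Z) ^ (1 / 2 : ℝ))))) :=
          mul_le_mul_of_nonneg_left hw2 hpre
      _ = (CW * V ^ 3 * ((d * P0 * Z) ^ e * Tc d P0)) *
          (Z ^ (if X ≤ Z then κ else 1) * X ^ (-(1 / 2 + (if X ≤ Z then κ else 1))) *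
        (X ^ (1 / 2 : ℝ) * ((X / Z) ^ e * (1 + (X / Z) ^ (1 / 2 : ℝ))))) := by ring
      _ ≤ (CW * V ^ 3 * ((d * P0 * Z) ^ e * Tc d P0)) * (2 * Z ^ κ * (Z / X) ^ e) := by
          refine mul_le_mul_of_nonneg_left key (by positivity)
      _ = (0 + 2 * CW) * V ^ 3 * (Z ^ κ * (d * P0 * Z) ^ e * Tc d P0) * (Z / X) ^ e := by ring
      _ ≤ _ := by gcongr

end Pool.Agent.H29.BH.KeyR
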