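import Pool.Agent.H29.BH.Targets3
import Pool.Agent.H29.BH.KeyR

/-!
# (R_BP) the second bound for the first sum
-/

set_option autoImplicit false

open NumberField NumberField.InfinitePlace NumberField.Units
  NumberField.Units.dirichletUnitTheorem MeasureTheory Set Filter Complex
open scoped nonZeroDivisors ENNReal

namespace Pool.Agent.H29.BH.RBP

open Pool.Agent.H29.BH
open Pool.Agent.H25.HK Pool.Agent.H23.LB Pool.Agent.H23.LC Pool.Agent.H29.DW
open Pool.Agent.H28.RC (Rep ft idl)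

/-! ### Real analysis -/

/-- the decay of the weight -/
private lemma decay {κ X B : ℝ} {v : ℝ → ℂ} (hWt : Wt κ X B v) :
    ∃ C : ℝ, ∀ x : ℝ, 1 ≤ x → ‖v x‖ ≤ C * x ^ (-(3 / 2) : ℝ) := by
  obtain ⟨g, hgm, hgb, hgv⟩ := hWt 1 (Or.inr rfl)
  refine ⟨∫ u : ℝ, B * X ^ (1 : ℝ) * Real.exp (-(1 / 4) * u ^ 2), fun x hx => ?_⟩
  have hx0 : 0 < x := by linarith
  rw [hgv x hx0, ← integral_mul_const]
  refine norm_integral_le_of_norm_le ?_ (Filter.Eventually.of_forall fun u => ?_)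
  · exact ((integrable_exp_neg_mul_sq (by norm_num : (0 : ℝ) < 1 / 4)).const_mul _).mul_const _
  · rw [norm_mul, Complex.norm_cpow_eq_rpow_re_of_pos hx0]
    have h4 : (-(1 / 2 + ((1 : ℝ) : ℂ) + u * I : ℂ)).re = -(3 / 2) := by
      simp
      norm_num
    rw [h4]
    have h5 := hgb u
    have h6 : Real.exp (-u ^ 2 / 4) = Real.exp (-(1 / 4) * u ^ 2) := by
      congr 1
      ring
    rw [h6] at h5
    exact mul_le_mul_of_nonneg_right h5 (Real.rpow_nonneg hx0.le _)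

private lemma gauss (n : ℕ) (u : ℝ) : (1 + |u|) ^ n * Real.exp (-u ^ 2 / 4) ≤
    n.factorial * Real.exp 3 * Real.exp (-(1 / 8) * u ^ 2) := by
  have h0 : 0 ≤ 1 + |u| := by positivity
  have h1 : (1 + |u|) ^ n ≤ n.factorial * Real.exp (1 + |u|) := by
    have := Real.pow_div_factorial_le_exp (1 + |u|) h0 n
    rw [div_le_iff₀ (by positivity)] at this
    linarith
  have h2 : 1 + |u| + -u ^ 2 / 4 ≤ 3 + -(1 / 8) * u ^ 2 := by
    have : |u| ^ 2 = u ^ 2 := sq_abs u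
    nlinarith [sq_nonneg (|u| - 4)]
  calc (1 + |u|) ^ n * Real.exp (-u ^ 2 / 4) ≤
      (n.factorial * Real.exp (1 + |u|)) * Real.exp (-u ^ 2 / 4) := by gcongr
    _ = n.factorial * Real.exp (1 + |u| + -u ^ 2 / 4) := by
      rw [Real.exp_add (1 + |u|)]
      ring
    _ ≤ n.factorial * Real.exp (3 + -(1 / 8) * u ^ 2) := by
      gcongr
    _ = _ := by
      rw [Real.exp_add 3]
      ring

/-- the Gaussian integral -/
private noncomputable def Gn (n : ℕ) : ℝ :=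
  ∫ u : ℝ, n.factorial * Real.exp 3 * Real.exp (-(1 / 8) * u ^ 2)

private lemma Gn_nonneg (n : ℕ) : 0 ≤ Gn n := integral_nonneg fun u => by positivity

private lemma lint_gauss (n : ℕ) {c : ℝ} (hc : 0 ≤ c) :
    ∫⁻ u : ℝ, ENNReal.ofReal (c * ((1 + |u|) ^ n * Real.exp (-u ^ 2 / 4))) ≤
      ENNReal.ofReal (c * Gn n) := by
  have hi : Integrable (fun u : ℝ => (n.factorial : ℝ) * Real.exp 3 *
      Real.exp (-(1 / 8) * u ^ 2)) :=
    (integrable_exp_neg_mul_sq (by norm_num : (0 : ℝ) < 1 / 8)).const_mul _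
  unfold Gn
  rw [← integral_const_mul, ofReal_integral_eq_lintegral_ofReal (hi.const_mul c)
    (Filter.Eventually.of_forall fun u => by positivity)]
  refine lintegral_mono fun u => ENNReal.ofReal_le_ofReal ?_
  exact mul_le_mul_of_nonneg_left (gauss n u) hc

/-- the windows cover the half line -/
private lemma cover (n : ℝ) (F : ℝ → ℝ≥0∞) (hF : ∀ τ, n < τ → F τ = 0) :
    ∫⁻ τ : ℝ, F τ ≤ ∑' j : ℕ, ∫⁻ τ in Icc (n - 1 - j) (n - 1 - j + 1), F τ := by
  refine le_trans ?_ (lintegral_iUnion_le _ _)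
  rw [← lintegral_indicator (MeasurableSet.iUnion fun j : ℕ => measurableSet_Icc)]
  refine lintegral_mono fun τ => ?_
  by_cases hτ : n < τ
  · rw [hF τ hτ]
    exact zero_le
  · push Not at hτ
    rw [Set.indicator_of_mem]
    rw [Set.mem_iUnion]
    have h0 : 0 ≤ n - τ := by linarith
    refine ⟨⌊n - τ⌋₊, ?_, ?_⟩
    · have := Nat.lt_floor_add_one (n - τ)
      linarith
    · have := Nat.floor_le h0
      linarith

/-! ### The conductor -/

section NF

variable {K : Type} [Field K] [NumberField K]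

omit [NumberField K] in
private lemma mp_im (ν : InfinitePlace K → ℝ) (σ t : ℝ) (v : InfinitePlace K) :
    (mp ν σ t v).im = v.mult * (ν v - t) := by
  unfold mp
  simp

omit [NumberField K] in
private lemma mp_re (ν : InfinitePlace K → ℝ) (σ t : ℝ) (v : InfinitePlace K) :
    (mp ν σ t v).re = -(v.mult * (1 / 2 + σ)) := by
  unfold mp
  simp
  ring

omit [NumberField K] in
private lemma mult_le (v : InfinitePlace K) : (1 : ℝ) ≤ v.mult ∧ (v.mult : ℝ) ≤ 2 := by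
  unfold InfinitePlace.mult
  split_ifs <;> norm_num

private lemma sum_mult (n : ℕ) (hn : Module.finrank ℚ K = n) :
    ∑ v : InfinitePlace K, v.mult = n := by
  rw [← hn]
  exact InfinitePlace.sum_mult_eq

private lemma prod_pow_const (n : ℕ) (hn : Module.finrank ℚ K = n) (a : ℝ) :
    ∏ v : InfinitePlace K, a ^ v.mult = a ^ n := by
  rw [Finset.prod_pow_eq_pow_sum, sum_mult n hn]

private lemma cK_le (n : ℕ) (hn : Module.finrank ℚ K = n) (k : InfinitePlace K → ℤ)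
    (ν : InfinitePlace K → ℝ) (σ t u : ℝ) :
    cK k (mp ν σ (t + u)) ≤ 2 ^ n * (1 + |u|) ^ n * Ci k ν t := by
  unfold cK Ci
  rw [← mul_pow, ← prod_pow_const n hn, ← Finset.prod_mul_distrib]
  refine Finset.prod_le_prod (fun v _ => ?_) fun v _ => ?_
  · unfold cc
    positivity
  · rw [← mul_pow]
    refine pow_le_pow_left₀ (by unfold cc; positivity) ?_ _
    unfold cc
    rw [mp_im, abs_mul]
    obtain ⟨h1, h2⟩ := mult_le v
    have h3 : |(v.mult : ℝ)| ≤ 2 := by rw [abs_of_nonneg (by linarith)]; exact h2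
    have h4 : |ν v - (t + u)| ≤ |t - ν v| + |u| := by
      have : ν v - (t + u) = -(t - ν v) - u := by ring
      rw [this]
      refine (abs_sub _ _).trans ?_
      rw [abs_neg]
    have h5 : |(v.mult : ℝ)| * |ν v - (t + u)| ≤ 2 * (|t - ν v| + |u|) :=
      mul_le_mul h3 h4 (abs_nonneg _) (by norm_num)
    have h6 : 0 ≤ |u| * |t - ν v| := by positivity
    have h7 : 0 ≤ |u| * |(k v : ℝ)| := by positivity
    nlinarith [abs_nonneg u, abs_nonneg (t - ν v), abs_nonneg (k v : ℝ)]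

private lemma Ci_le (n : ℕ) (hn : Module.finrank ℚ K = n) (k : InfinitePlace K → ℤ)
    (ν : InfinitePlace K → ℝ) (σ t u : ℝ) :
    Ci k ν t ≤ (1 + |u|) ^ n * cK k (mp ν σ (t + u)) := by
  unfold cK Ci
  rw [← prod_pow_const n hn, ← Finset.prod_mul_distrib]
  refine Finset.prod_le_prod (fun v _ => by positivity) fun v _ => ?_
  rw [← mul_pow]
  refine pow_le_pow_left₀ (by positivity) ?_ _
  unfold cc
  rw [mp_im, abs_mul]
  obtain ⟨h1, h2⟩ := mult_le v
  have h3 : 1 ≤ |(v.mult : ℝ)| := by rw [abs_of_nonneg (by linarith)]; exact h1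
  have h4 : |t - ν v| ≤ |ν v - (t + u)| + |u| := by
    have : t - ν v = -(ν v - (t + u)) - u := by ring
    rw [this]
    refine (abs_sub _ _).trans ?_
    rw [abs_neg]
  have h5 : |ν v - (t + u)| ≤ |(v.mult : ℝ)| * |ν v - (t + u)| :=
    le_mul_of_one_le_left (abs_nonneg _) h3
  have h6 : 0 ≤ |u| * (|(v.mult : ℝ)| * |ν v - (t + u)|) := by positivity
  have h7 : 0 ≤ |u| * |(k v : ℝ)| := by positivity
  nlinarith [abs_nonneg u, abs_nonneg (t - ν v), abs_nonneg (k v : ℝ)]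

private lemma one_le_Ci (k : InfinitePlace K → ℤ) (ν : InfinitePlace K → ℝ) (t : ℝ) :
    1 ≤ Ci k ν t := by
  unfold Ci
  refine Finset.prod_induction _ (fun x => 1 ≤ x)
    (fun a b ha hb => one_le_mul_of_one_le_of_one_le ha hb) le_rfl
    (fun v _ => one_le_pow₀ ?_)
  linarith [abs_nonneg (t - ν v), abs_nonneg (k v : ℝ)]

private lemma one_le_cK (k : InfinitePlace K → ℤ) (μ : InfinitePlace K → ℂ) : 1 ≤ cK k μ := by
  unfold cK
  refine Finset.prod_induction _ (fun x => 1 ≤ x)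
    (fun a b ha hb => one_le_mul_of_one_le_of_one_le ha hb) le_rfl
    (fun v _ => one_le_pow₀ ?_)
  unfold cc
  linarith [abs_nonneg (μ v).im, abs_nonneg (k v : ℝ)]

private lemma one_le_Nf {f : Ideal (𝓞 K)} (hf : f ≠ ⊥) : 1 ≤ Nf K f := by
  unfold Nf
  have : Ideal.absNorm f ≠ 0 := by
    rw [Ne, Ideal.absNorm_eq_zero_iff]
    exact hf
  exact_mod_cast Nat.one_le_iff_ne_zero.2 this

private lemma one_le_discr : (1 : ℝ) ≤ |(discr K : ℝ)| := by
  have h1 : (discr K) ≠ 0 := discr_ne_zero K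
  have h2 : 1 ≤ |discr K| := Int.one_le_abs h1
  exact_mod_cast h2

private lemma Qk_mp {f : Ideal (𝓞 K)} (χ : HG K f) {σ : ℝ} (hσ : 0 ≤ σ) (hσ1 : σ ≤ 1) (t : ℝ) :
    Qk χ.k (mp χ.ν σ t) := by
  refine ⟨fun v => ⟨fun h => ?_, ?_⟩⟩
  · refine χ.real_k v ?_
    unfold rv at h
    classical
    simpa using h
  · rw [mp_re, abs_neg]
    obtain ⟨h1, h2⟩ := mult_le v
    rw [abs_of_nonneg (by positivity)]
    nlinarith

/-! ### The support -/

private lemma pk_le {r : Bool} {w : ℂ} (h : pk r w ≠ 0) : ‖w‖ ≤ 17 / 8 := by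
  by_contra hc
  apply h
  have h0 : {p : ℂ | 1 ≤ ‖p‖ ∧ ‖p‖ ≤ 2 ∧ ‖w - p‖ ≤ 1 / 8} = ∅ := by
    ext p
    simp only [Set.mem_ofPred_eq, mem_empty_iff_false, iff_false, not_and]
    intro h1 h2 h3
    apply hc
    have h4 : ‖w‖ ≤ ‖w - p‖ + ‖p‖ := by
      calc ‖w‖ = ‖(w - p) + p‖ := by rw [sub_add_cancel]
        _ ≤ _ := norm_add_le _ _
    linarith
  unfold pk
  rw [h0, measure_empty]

private lemma PK_eq_zero (hNV : K_NV) (n : ℕ) (hn : Module.finrank ℚ K = n) {M : FI K}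
    (hM : M ≠ 0) {x : K} (hx : x ∈ M) (hx0 : x ≠ 0) (z : logSpace K) {τ : ℝ} (hτ : (n : ℝ) < τ) :
    PK (sy (yM K M τ z) x) = 0 := by
  by_contra h
  obtain ⟨hbt0, -, hnv1, -, -, hbt⟩ := hNV K M (yM K M τ z) hM
  have h1 := hnv1 x hx hx0
  rw [hbt τ z] at h1
  have h2 : nv (yM K M τ z) x ≤ (17 / 8) ^ n := by
    unfold nv
    rw [← prod_pow_const n hn]
    refine Finset.prod_le_prod (fun v _ => by positivity) fun v _ => ?_
    refine pow_le_pow_left₀ (norm_nonneg _) (pk_le (r := rv v) fun h0 => ?_) _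
    have h' : PK (sy (yM K M τ z) x) ≠ 0 := h
    unfold PK at h'
    rw [Finset.prod_ne_zero_iff] at h'
    refine h' v (Finset.mem_univ v) ?_
    rw [h0]
    rfl
  have h3 : ((17 : ℝ) / 8) ^ n ≤ Real.exp n := by
    rw [← Real.exp_one_pow]
    exact pow_le_pow_left₀ (by norm_num) (by linarith [Real.exp_one_gt_d9]) n
  have h4 : Real.exp n < Real.exp τ := Real.exp_lt_exp.2 hτ
  have h5 : nv (yM K M τ z) x * Real.exp (-τ) < 1 := by
    rw [Real.exp_neg, ← div_eq_mul_inv, div_lt_one (Real.exp_pos _)]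
    linarith
  linarith

end NF

/-! ### Tonelli -/

section Ton

variable {K : Type} [Field K] [NumberField K]

open scoped Classical in
private lemma tonelli (hNV : K_NV) (hIN : P_IN) (hMS : P_MS) (n : ℕ)
    (hn : Module.finrank ℚ K = n) {f : Ideal (𝓞 K)} (hf : f ≠ ⊥) (χ : HG K f) {M : FI K}
    (hM : M ≠ 0) {κ X B : ℝ} (t : ℝ) {v : ℝ → ℂ} (hκ : 0 < κ) (hκ1 : κ ≤ 1) (hX : 0 < X)
    (hB : 0 ≤ B) (hWt : Wt κ X B v) :
    ∫⁻ z in Fd K, ∫⁻ τ : ℝ,
      ENNReal.ofReal ‖∑' x : {x : K // x ∈ M ∧ x ≠ 0}, χ.ψ (idl K M x) *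
        v (Ideal.absNorm (idl K M x)) *
          (Ideal.absNorm (idl K M x.1) : ℂ) ^ (-(t * I : ℂ)) *
            ((PK (sy (yM K M τ z) x.1) : ℝ) : ℂ)‖ ≤
    ∑' j : ℕ, ENNReal.ofReal (B * X ^ (if Real.exp (-((n : ℝ) - 1 - j)) ≤ X then κ else 1) *
      Real.exp (((n : ℝ) - 1 - j + 1) *
        (1 / 2 + (if Real.exp (-((n : ℝ) - 1 - j)) ≤ X then κ else 1)))) *
      ∫⁻ u : ℝ, ENNReal.ofReal (Real.exp (-u ^ 2 / 4)) *
        ∫⁻ z in Fd K, ∫⁻ τ in Icc ((n : ℝ) - 1 - j) ((n : ℝ) - 1 - j + 1),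
          ENNReal.ofReal ‖SS χ M (yM K M τ z)
            (mp χ.ν (if Real.exp (-((n : ℝ) - 1 - j)) ≤ X then κ else 1) (t + u))‖ := by
  set m : ℕ → ℝ := fun j => (n : ℝ) - 1 - j with hm
  set s : ℕ → ℝ := fun j => if Real.exp (-(m j)) ≤ X then κ else 1 with hs
  have hs2 : ∀ j, s j = κ ∨ s j = 1 := by
    intro j
    rw [hs]
    simp only
    split_ifs
    · exact Or.inl rfl
    · exact Or.inr rfl
  have hs0 : ∀ j, 0 ≤ s j := by
    intro j
    rcases hs2 j with h | h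
    · rw [h]; exact hκ.le
    · rw [h]; exact zero_le_one
  set h : ℕ → ℝ × ℝ × logSpace K → ℝ≥0∞ := fun j q =>
    ENNReal.ofReal (Real.exp (-q.1 ^ 2 / 4)) *
      ENNReal.ofReal ‖SS χ M (yM K M q.2.1 q.2.2) (mp χ.ν (s j) (t + q.1))‖ with hh
  have hhm : ∀ j, Measurable (h j) := by
    intro j
    have h1 := (hMS K f hf χ M (s j) t hM).1
    refine Measurable.mul ?_ (ENNReal.measurable_ofReal.comp h1.norm)
    fun_prop
  set A : ℕ → ℝ≥0∞ := fun j => ENNReal.ofReal (B * X ^ (s j) *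
    Real.exp ((m j + 1) * (1 / 2 + s j))) with hA
  -- the bound for one `z`
  have hz : ∀ z : logSpace K, ∫⁻ τ : ℝ,
      ENNReal.ofReal ‖∑' x : {x : K // x ∈ M ∧ x ≠ 0}, χ.ψ (idl K M x) *
        v (Ideal.absNorm (idl K M x)) *
          (Ideal.absNorm (idl K M x.1) : ℂ) ^ (-(t * I : ℂ)) *
            ((PK (sy (yM K M τ z) x.1) : ℝ) : ℂ)‖ ≤
      ∑' j : ℕ, A j * ∫⁻ τ in Icc (m j) (m j + 1), ∫⁻ u : ℝ, h j (u, τ, z) := by
    intro z
    refine (cover (n : ℝ) _ fun τ hτ => ?_).trans ?_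
    · have h0 : ∀ x : {x : K // x ∈ M ∧ x ≠ 0}, χ.ψ (idl K M x) *
          v (Ideal.absNorm (idl K M x)) *
            (Ideal.absNorm (idl K M x.1) : ℂ) ^ (-(t * I : ℂ)) *
              ((PK (sy (yM K M τ z) x.1) : ℝ) : ℂ) = 0 := by
        intro x
        rw [PK_eq_zero hNV n hn hM x.2.1 x.2.2 z hτ, Complex.ofReal_zero, mul_zero]
      rw [tsum_congr h0, tsum_zero, norm_zero, ENNReal.ofReal_zero]
    · refine ENNReal.tsum_le_tsum fun j => ?_
      rw [← lintegral_const_mul' _ _ (by rw [hA]; exact ENNReal.ofReal_ne_top)]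
      refine setLIntegral_mono' measurableSet_Icc fun τ hτ => ?_
      refine (hIN K f hf χ M κ X B t v hM hκ hκ1 hX hB hWt z τ (s j) (hs2 j)).trans ?_
      refine mul_le_mul' ?_ (le_of_eq ?_)
      · rw [hA]
        refine ENNReal.ofReal_le_ofReal ?_
        have h1 : 0 ≤ 1 / 2 + s j := by linarith [hs0 j]
        have h2 : τ ≤ m j + 1 := hτ.2
        gcongr
      · refine lintegral_congr fun u => ?_
        rw [hh]
        simp only
        rw [ENNReal.ofReal_mul (Real.exp_pos _).le]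
  refine (lintegral_mono hz).trans ?_
  have hm1 : ∀ j, Measurable (fun p : ℝ × logSpace K => ∫⁻ u : ℝ, h j (u, p)) :=
    fun j => (hhm j).lintegral_prod_left'
  have hm2 : ∀ j, Measurable (fun z : logSpace K =>
      ∫⁻ τ in Icc (m j) (m j + 1), ∫⁻ u : ℝ, h j (u, τ, z)) :=
    fun j => (hm1 j).lintegral_prod_left'
  rw [lintegral_tsum fun j => ((hm2 j).const_mul _).aemeasurable]
  refine ENNReal.tsum_le_tsum fun j => ?_
  rw [lintegral_const_mul' _ _ (by rw [hA]; exact ENNReal.ofReal_ne_top)]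
  refine mul_le_mul' le_rfl (le_of_eq ?_)
  -- swap
  have e1 : ∀ z : logSpace K, ∫⁻ τ in Icc (m j) (m j + 1), ∫⁻ u : ℝ, h j (u, τ, z) =
      ∫⁻ u : ℝ, ∫⁻ τ in Icc (m j) (m j + 1), h j (u, τ, z) := by
    intro z
    refine lintegral_lintegral_swap ?_
    refine Measurable.aemeasurable ?_
    exact (hhm j).comp (measurable_snd.prodMk (measurable_fst.prodMk measurable_const))
  rw [lintegral_congr e1]
  have hm3 : Measurable (fun p : logSpace K × ℝ =>
      ∫⁻ τ in Icc (m j) (m j + 1), h j (p.2, τ, p.1)) := by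
    have h1 : Measurable (fun q : ℝ × logSpace K × ℝ => h j (q.2.2, q.1, q.2.1)) :=
      (hhm j).comp ((measurable_snd.comp measurable_snd).prodMk
        (measurable_fst.prodMk (measurable_fst.comp measurable_snd)))
    exact h1.lintegral_prod_left'
  rw [lintegral_lintegral_swap hm3.aemeasurable]
  refine lintegral_congr fun u => ?_
  have e2 : ∀ z : logSpace K, ∫⁻ τ in Icc (m j) (m j + 1), h j (u, τ, z) =
      ENNReal.ofReal (Real.exp (-u ^ 2 / 4)) * ∫⁻ τ in Icc (m j) (m j + 1),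
        ENNReal.ofReal ‖SS χ M (yM K M τ z) (mp χ.ν (s j) (t + u))‖ := by
    intro z
    rw [← lintegral_const_mul' _ _ ENNReal.ofReal_ne_top]
  rw [lintegral_congr e2, lintegral_const_mul' _ _ ENNReal.ofReal_ne_top]

open scoped Classical in
private lemma measW (hMS : P_MS) {f : Ideal (𝓞 K)} (hf : f ≠ ⊥) (χ : HG K f) {M : FI K}
    (hM : M ≠ 0) (σ t a b : ℝ) :
    Measurable (fun u : ℝ => ENNReal.ofReal (Real.exp (-u ^ 2 / 4)) *
        ∫⁻ z in Fd K, ∫⁻ τ in Icc a b, ENNReal.ofReal ‖SS χ M (yM K M τ z)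
            (mp χ.ν σ (t + u))‖) := by
  have h0 := (hMS K f hf χ M σ t hM).1
  obtain ⟨g, hg⟩ : ∃ g : ℝ × ℝ × logSpace K → ℝ≥0∞, g = fun q : ℝ × ℝ × logSpace K =>
      ENNReal.ofReal ‖SS χ M (yM K M q.2.1 q.2.2) (mp χ.ν σ (t + q.1))‖ := ⟨_, rfl⟩
  have h1 : Measurable g := by
    rw [hg]
    exact ENNReal.measurable_ofReal.comp h0.norm
  have h2 : Measurable (fun q : ℝ × ℝ × logSpace K => g (q.2.1, q.1, q.2.2)) :=
    h1.comp ((measurable_fst.comp measurable_snd).prodMk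
      (measurable_fst.prodMk (measurable_snd.comp measurable_snd)))
  have h3 : Measurable (fun p : ℝ × logSpace K => ∫⁻ τ in Icc a b, g (p.1, τ, p.2)) :=
    h2.lintegral_prod_left'
  have h4 : Measurable (fun u : ℝ => ∫⁻ z in Fd K, ∫⁻ τ in Icc a b, g (u, τ, z)) :=
    h3.lintegral_prod_right'
  rw [hg] at h4
  have h5 : Measurable (fun u : ℝ => ENNReal.ofReal (Real.exp (-u ^ 2 / 4))) := by fun_prop
  exact h5.mul h4

end Ton

private lemma final_ineq {d P0 ε κ e : ℝ} (hd : 1 ≤ d) (hP0 : 1 ≤ P0) (hε : 0 < ε)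
    (hκ : 0 < κ) (hκε : κ ≤ ε / 32) (he : e = ε / 8) :
    Real.sqrt (d * P0) ^ κ * (d * P0 * Real.sqrt (d * P0)) ^ e * Real.sqrt (d * P0) ^ e ≤
      (d * P0) ^ ε := by
  have hD : 1 ≤ d * P0 := one_le_mul_of_one_le_of_one_le hd hP0
  have hD0 : 0 < d * P0 := by linarith
  have he0 : 0 < e := by rw [he]; positivity
  have h1 : Real.sqrt (d * P0) = (d * P0) ^ (1 / 2 : ℝ) := Real.sqrt_eq_rpow _
  calc Real.sqrt (d * P0) ^ κ * (d * P0 * Real.sqrt (d * P0)) ^ e * Real.sqrt (d * P0) ^ e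
      = (d * P0) ^ (κ / 2 + 2 * e) := by
        rw [h1, Real.mul_rpow hD0.le (Real.rpow_nonneg hD0.le _), ← Real.rpow_mul hD0.le,
          ← Real.rpow_mul hD0.le, ← Real.rpow_add hD0, ← Real.rpow_add hD0,
          ← Real.rpow_add hD0]
        congr 1
        ring
    _ ≤ (d * P0) ^ ε := by
        refine Real.rpow_le_rpow_of_exponent_le hD ?_
        rw [he]
        linarith

open scoped Classical in
/-- (R_BP) -/
theorem pf_R_BP (hUR : P_UR) (hIN : P_IN) (hWB : R_WB) (hTV : P_TV) (hMS : P_MS)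
    (hNV : K_NV) (hSY : T_SY) : R_BP := by
  intro n hn ε κ hε hε1 hκ hκε
  obtain ⟨CU, hCU, hUR⟩ := hUR n hn
  obtain ⟨e, he⟩ : ∃ e : ℝ, e = ε / 8 := ⟨_, rfl⟩
  have he0 : 0 < e := by rw [he]; positivity
  have he1 : e ≤ 1 := by rw [he]; linarith
  have hκ1 : κ ≤ 1 := by linarith
  have hκe : κ + e ≤ 1 / 4 := by rw [he]; linarith
  obtain ⟨CW, hCW, hWB⟩ := hWB n hn e he0 he1
  obtain ⟨CT, hCT, hTV⟩ := hTV n hn κ hκ hκ1
  set r : ℝ := Real.exp (-e) with hr
  have hr0 : 0 ≤ r := (Real.exp_pos _).le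
  have hr1 : r < 1 := by
    rw [hr]
    exact Real.exp_lt_one_iff.2 (by linarith)
  have hrinv : 0 ≤ (1 - r)⁻¹ := inv_nonneg.2 (by linarith)
  have hG := Gn_nonneg (3 * n)
  have hCT0 : 0 ≤ CT := by linarith
  have hCW0 : 0 ≤ CW := by linarith
  have hCU0 : 0 ≤ CU := by linarith
  refine ⟨CU * (Real.exp (3 / 2) * ((CT + 2 * CW) * Real.exp n ^ 3) * Gn (3 * n) *
    (Real.exp n * (1 - r)⁻¹)), by positivity, ?_⟩
  intro K _ _ hK f hf χ hχ t B v hB hWt
  obtain ⟨D⟩ := hSY K f hf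
  set d : ℝ := |(discr K : ℝ)| with hd
  have hd1 : 1 ≤ d := one_le_discr
  set P0 : ℝ := Nf K f * Ci χ.k χ.ν t with hP0
  have hNf1 : 1 ≤ Nf K f := one_le_Nf hf
  have hP01 : 1 ≤ P0 := one_le_mul_of_one_le_of_one_le hNf1 (one_le_Ci _ _ _)
  rw [mul_assoc d, ← hP0] at hWt ⊢
  set X0 : ℝ := Real.sqrt (d * P0) with hX0
  have hX0pos : 0 < X0 := Real.sqrt_pos.2 (by positivity)
  set m : ℕ → ℝ := fun j => (n : ℝ) - 1 - j with hm
  set s : ℕ → ℝ := fun j => if Real.exp (-(m j)) ≤ X0 then κ else 1 with hs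
  have hs01 : ∀ j, 0 ≤ s j ∧ s j ≤ 1 := by
    intro j
    rw [hs]
    simp only
    split_ifs
    · exact ⟨hκ.le, hκ1⟩
    · exact ⟨zero_le_one, le_rfl⟩
  set Y : ℝ := X0 ^ κ * (d * P0 * X0) ^ e * Tb d P0 with hY
  have hTb : 0 ≤ Tb d P0 := by
    unfold Tb
    positivity
  have hY0 : 0 ≤ Y := by positivity
  set A : ℕ → ℝ≥0∞ := fun j => ENNReal.ofReal (B * X0 ^ (s j) *
    Real.exp ((m j + 1) * (1 / 2 + s j))) with hA
  set W : D.ι → ℕ → ℝ → ℝ≥0∞ := fun c j u => ∫⁻ z in Fd K, ∫⁻ τ in Icc (m j) (m j + 1),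
    ENNReal.ofReal ‖SS χ (D.M c) (yM K (D.M c) τ z) (mp χ.ν (s j) (t + u))‖ with hW
  -- the window bound
  have hwin : ∀ j : ℕ, A j * ∫⁻ u : ℝ, ∑ c, ENNReal.ofReal (Real.exp (-u ^ 2 / 4)) * W c j u ≤
      ENNReal.ofReal (B * (Real.exp (3 / 2) * ((CT + 2 * CW) * Real.exp n ^ 3) * Gn (3 * n)) *
        (Y * X0 ^ e) * (Real.exp n * r ^ j)) := by
    intro j
    have hXj : 0 < Real.exp (-(m j)) := Real.exp_pos _
    set c1 : ℝ := B * (Real.exp (3 / 2) * ((CT + 2 * CW) * Real.exp n ^ 3)) * Y *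
      (X0 / Real.exp (-(m j))) ^ e with hc1
    have hc10 : 0 ≤ c1 := by positivity
    have h1 : A j * ∫⁻ u : ℝ, ∑ c, ENNReal.ofReal (Real.exp (-u ^ 2 / 4)) * W c j u ≤
        ∫⁻ u : ℝ, ENNReal.ofReal (c1 * ((1 + |u|) ^ (3 * n) * Real.exp (-u ^ 2 / 4))) := by
      rw [← lintegral_const_mul' _ _ (by rw [hA]; exact ENNReal.ofReal_ne_top)]
      refine lintegral_mono fun u => ?_
      simp only
      rw [← Finset.mul_sum]
      have hQ : Qk χ.k (mp χ.ν (s j) (t + u)) := Qk_mp χ (hs01 j).1 (hs01 j).2 _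
      have hT : ∑ c, W c j u ≤ ENNReal.ofReal (CT * Real.exp (-(m j)) ^ (1 + κ)) :=
        hTV K hK f hf χ D.ι D.M D.reps (mp χ.ν (s j) (t + u)) (m j) hQ
      set w : ℝ := (∑ c, W c j u).toReal with hw
      have hwne : ∑ c, W c j u ≠ ⊤ := ne_top_of_le_ne_top ENNReal.ofReal_ne_top hT
      have hwe : ∑ c, W c j u = ENNReal.ofReal w := (ENNReal.ofReal_toReal hwne).symm
      have hw0 : 0 ≤ w := ENNReal.toReal_nonneg
      have hT' : w ≤ CT * Real.exp (-(m j)) ^ (1 + κ) :=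
        ENNReal.toReal_le_of_le_ofReal (by positivity) hT
      set P : ℝ := Nf K f * cK χ.k (mp χ.ν (s j) (t + u)) with hP
      have hP1 : 1 ≤ P := one_le_mul_of_one_le_of_one_le hNf1 (one_le_cK _ _)
      have hB' : 1 ≤ Real.exp (-(m j)) →
          w ≤ CW * (d * P * Real.exp (-(m j))) ^ e *
            (Real.exp (-(m j)) ^ (1 / 2 : ℝ) * Tb d P *
              (1 + Real.exp (-(m j)) / (d * P) ^ (1 / 2 : ℝ)) ^ (1 / 2 : ℝ)) := by
        intro h2
        have h4 := hWB K hK f hf χ hχ D.ι D.M D.reps (mp χ.ν (s j) (t + u)) (m j) P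
          (Real.exp (-(m j))) hQ hP rfl h2
        have hTb0 : 0 ≤ Tb d P := by
          unfold Tb
          positivity
        exact ENNReal.toReal_le_of_le_ofReal (by positivity) h4
      have hU1 : 1 ≤ (1 + |u|) ^ n := one_le_pow₀ (by linarith [abs_nonneg u])
      have hk := KeyR.window (n := n) (d := d) (P0 := P0) (P := P) (X := Real.exp (-(m j))) (κ := κ)
        (e := e) (w := w) (CT := CT) (CW := CW) (U := (1 + |u|) ^ n) hd1 hP01 hP1 hU1
        (by
          rw [hP, hP0]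
          have := cK_le n hK χ.k χ.ν (s j) t u
          calc Nf K f * cK χ.k (mp χ.ν (s j) (t + u)) ≤
              Nf K f * (2 ^ n * (1 + |u|) ^ n * Ci χ.k χ.ν t) := by gcongr
            _ = _ := by ring)
        (by
          rw [hP, hP0]
          have := Ci_le n hK χ.k χ.ν (s j) t u
          calc Nf K f * Ci χ.k χ.ν t ≤
              Nf K f * ((1 + |u|) ^ n * cK χ.k (mp χ.ν (s j) (t + u))) := by gcongr
            _ = _ := by ring)
        hκ he0 hκe
        (by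
          refine Real.exp_le_exp.2 ?_
          rw [hm]
          simp only
          have : (0 : ℝ) ≤ j := Nat.cast_nonneg j
          linarith)
        hCT0 hCW0 hT' hB'
      have hk' : X0 ^ (s j) * Real.exp (-(m j)) ^ (-(1 / 2 + s j)) * w ≤
          (CT + 2 * CW) * (Real.exp n * (1 + |u|) ^ n) ^ 3 * Y *
            (X0 / Real.exp (-(m j))) ^ e := hk
      rw [hwe, hA]
      simp only
      rw [← ENNReal.ofReal_mul (Real.exp_pos _).le, ← ENNReal.ofReal_mul (by positivity)]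
      refine ENNReal.ofReal_le_ofReal ?_
      have h5 : Real.exp ((m j + 1) * (1 / 2 + s j)) =
          Real.exp (1 / 2 + s j) * Real.exp (-(m j)) ^ (-(1 / 2 + s j)) := by
        rw [← Real.exp_mul, ← Real.exp_add]
        congr 1
        ring
      have h6 : Real.exp (1 / 2 + s j) ≤ Real.exp (3 / 2) := by
        refine Real.exp_le_exp.2 ?_
        linarith [(hs01 j).2]
      calc B * X0 ^ (s j) * Real.exp ((m j + 1) * (1 / 2 + s j)) *
            (Real.exp (-u ^ 2 / 4) * w) =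
          (B * Real.exp (-u ^ 2 / 4)) * (Real.exp (1 / 2 + s j) *
            (X0 ^ (s j) * Real.exp (-(m j)) ^ (-(1 / 2 + s j)) * w)) := by
            rw [h5]
            ring
        _ ≤ (B * Real.exp (-u ^ 2 / 4)) * (Real.exp (3 / 2) *
            ((CT + 2 * CW) * (Real.exp n * (1 + |u|) ^ n) ^ 3 * Y *
              (X0 / Real.exp (-(m j))) ^ e)) := by
            refine mul_le_mul_of_nonneg_left ?_ (by positivity)
            exact mul_le_mul h6 hk' (by positivity) (Real.exp_pos _).le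
        _ = c1 * ((1 + |u|) ^ (3 * n) * Real.exp (-u ^ 2 / 4)) := by
            rw [hc1, mul_comm 3 n, pow_mul]
            ring
    refine h1.trans ((lint_gauss (3 * n) hc10).trans (ENNReal.ofReal_le_ofReal ?_))
    have h7 : (X0 / Real.exp (-(m j))) ^ e ≤ X0 ^ e * (Real.exp n * r ^ j) := by
      rw [Real.exp_neg, div_inv_eq_mul, Real.mul_rpow hX0pos.le (Real.exp_pos _).le]
      refine mul_le_mul_of_nonneg_left ?_ (Real.rpow_nonneg hX0pos.le _)
      rw [← Real.exp_mul, hr, ← Real.exp_nat_mul, ← Real.exp_add]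
      refine Real.exp_le_exp.2 ?_
      rw [hm]
      simp only
      have hn1 : (1 : ℝ) ≤ n := by exact_mod_cast hn
      have h8 : ((n : ℝ) - 1) * e ≤ ((n : ℝ) - 1) * 1 :=
        mul_le_mul_of_nonneg_left he1 (by linarith)
      nlinarith
    calc c1 * Gn (3 * n) = B * (Real.exp (3 / 2) * ((CT + 2 * CW) * Real.exp n ^ 3) * Gn (3 * n)) * Y *
          (X0 / Real.exp (-(m j))) ^ e := by
          rw [hc1]
          ring
      _ ≤ B * (Real.exp (3 / 2) * ((CT + 2 * CW) * Real.exp n ^ 3) * Gn (3 * n)) * Y *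
          (X0 ^ e * (Real.exp n * r ^ j)) := by
          refine mul_le_mul_of_nonneg_left h7 (by positivity)
      _ = _ := by ring
  -- the sum
  have hmain : ENNReal.ofReal ‖∑' J : NZI K, χ.ψ J.1 * v (Ideal.absNorm J.1) *
      (Ideal.absNorm J.1 : ℂ) ^ (-(t * I : ℂ))‖ ≤ ENNReal.ofReal CU *
        ∑' j : ℕ, ENNReal.ofReal (B * (Real.exp (3 / 2) * ((CT + 2 * CW) * Real.exp n ^ 3) * Gn (3 * n)) *
        (Y * X0 ^ e) * (Real.exp n * r ^ j)) := by
    refine (hUR K hK f hf χ D.ι D.M D.reps t v (decay hWt)).trans ?_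
    refine mul_le_mul' le_rfl ?_
    refine (Finset.sum_le_sum fun c _ => tonelli hNV hIN hMS n hK hf χ (D.reps.1 c) t hκ hκ1
      hX0pos hB hWt).trans ?_
    have h1 : ∑ c, ∑' j : ℕ, A j * ∫⁻ u : ℝ, ENNReal.ofReal (Real.exp (-u ^ 2 / 4)) * W c j u =
        ∑' j : ℕ, A j * ∫⁻ u : ℝ, ∑ c, ENNReal.ofReal (Real.exp (-u ^ 2 / 4)) * W c j u := by
      rw [← Summable.tsum_finsetSum fun c _ => ENNReal.summable]
      refine tsum_congr fun j => ?_
      rw [← Finset.mul_sum]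
      congr 1
      rw [lintegral_finsetSum]
      intro c _
      exact measW hMS hf χ (D.reps.1 c) (s j) t (m j) (m j + 1)
    refine (le_of_eq h1).trans ?_
    exact ENNReal.tsum_le_tsum hwin
  have hgeo : ∑' j : ℕ, ENNReal.ofReal (B * (Real.exp (3 / 2) * ((CT + 2 * CW) * Real.exp n ^ 3) *
      Gn (3 * n)) * (Y * X0 ^ e) * (Real.exp n * r ^ j)) = ENNReal.ofReal (B * (Real.exp (3 / 2) *
        ((CT + 2 * CW) * Real.exp n ^ 3) * Gn (3 * n)) * (Y * X0 ^ e) * (Real.exp n * (1 - r)⁻¹)) := by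
    have hsum : Summable (fun j : ℕ => B * (Real.exp (3 / 2) * ((CT + 2 * CW) * Real.exp n ^ 3) *
        Gn (3 * n)) * (Y * X0 ^ e) * (Real.exp n * r ^ j)) :=
      ((summable_geometric_of_lt_one hr0 hr1).mul_left _).mul_left _
    rw [← ENNReal.ofReal_tsum_of_nonneg (fun j => by positivity) hsum]
    congr 1
    rw [tsum_mul_left, tsum_mul_left, tsum_geometric_of_lt_one hr0 hr1]
  rw [hgeo, ← ENNReal.ofReal_mul hCU0] at hmain
  have hfin := (ENNReal.ofReal_le_ofReal_iff (by positivity)).1 hmain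
  refine hfin.trans ?_
  have hF := final_ineq hd1 hP01 hε hκ hκε he
  have hYX : Y * X0 ^ e ≤ (d * P0) ^ ε * Tb d P0 := by
    calc Y * X0 ^ e = (X0 ^ κ * (d * P0 * X0) ^ e * X0 ^ e) *
          Tb d P0 := by
          rw [hY]
          ring
      _ ≤ _ := mul_le_mul_of_nonneg_right hF (by positivity)
  calc CU * (B * (Real.exp (3 / 2) * ((CT + 2 * CW) * Real.exp n ^ 3) * Gn (3 * n)) * (Y * X0 ^ e) *
        (Real.exp n * (1 - r)⁻¹)) =
      (CU * (Real.exp (3 / 2) * ((CT + 2 * CW) * Real.exp n ^ 3) * Gn (3 * n) *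
        (Real.exp n * (1 - r)⁻¹)) * B) * (Y * X0 ^ e) := by ring
    _ ≤ (CU * (Real.exp (3 / 2) * ((CT + 2 * CW) * Real.exp n ^ 3) * Gn (3 * n) *
        (Real.exp n * (1 - r)⁻¹)) * B) * ((d * P0) ^ ε *
          Tb d P0) :=
        mul_le_mul_of_nonneg_left hYX (by positivity)
    _ = _ := by ring

end Pool.Agent.H29.BH.RBP
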