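import Pool.Agent.H29.BH.AllRd
import Pool.Agent.H29.BH.Fin2
import Pool.Agent.H29.BH.RBP

/-!
# The second hybrid bound: assembly, fifth part
-/

set_option autoImplicit false

open NumberField NumberField.InfinitePlace Complex

namespace Pool.Agent.H29.BH.AllR

open Pool.Agent.H23.LB Pool.Agent.H23.LC Pool.Agent.H29.DW Pool.Agent.H29.DW.Base
open Pool.Agent.H29.DW.All Pool.Agent.H29.THC Pool.Agent.H29.BH.All
open Pool.Agent.H29.THC.All (a_GX a_HR)
open Pool.Agent.H29.THC.Base (c_TH c_YC c_UI c_DU c_CT c_ID c_RX c_PU c_RR c_FP c_NS c_ME c_SY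
  c_SE)

theorem r_BP : R_BP := RBP.pf_R_BP b_UR b_IN r_WB b_TV b_MS b_NV c_SY

theorem r_WFc : R_WF := r_WF r_BP

end Pool.Agent.H29.BH.AllR
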