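import Pool.Agent.H29.DW.Defs

/-!
# The hybrid bound of Burgess: local definitions

`r = true`: the real numbers, `r = false`: the complex numbers.
-/

set_option autoImplicit false

open MeasureTheory Set Filter Complex
open scoped ENNReal

namespace Pool.Agent.H29.BH

open Pool.Agent.H29.DW (dg Rl)

/-- Lebesgue measure on the real axis (`r = true`) or on the complex plane (`r = false`) -/
noncomputable def mz (r : Bool) : Measure ℂ :=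
  if r then Measure.map (fun x : ℝ => (x : ℂ)) volume else volume

instance instSFin (r : Bool) : SigmaFinite (mz r) := by
  unfold mz
  cases r
  · simp only [Bool.false_eq_true, if_false]
    infer_instance
  · simp only [if_true]
    have h : MeasurableEmbedding (fun x : ℝ => (x : ℂ)) :=
      Complex.isometry_ofReal.isClosedEmbedding.measurableEmbedding
    exact h.sigmaFinite_map

/-- the quasi-character `(w / |w|) ^ k |w| ^ μ` -/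
noncomputable def Gm (k : ℤ) (μ w : ℂ) : ℂ :=
  (w / ((‖w‖ : ℝ) : ℂ)) ^ k * cexp (μ * ((Real.log ‖w‖ : ℝ) : ℂ))

/-- the local conductor -/
noncomputable def cc (k : ℤ) (μ : ℂ) : ℝ := 1 + |μ.im| + |(k : ℝ)|

/-- amplitudes of class `C ^ 1` with support in `1 / 2 ≤ |z| ≤ 3` -/
structure Sm (r : Bool) (B : ℝ) (g : ℂ → ℂ) : Prop where
  bound : ∀ z, Rl r z → ‖g z‖ ≤ B
  supp : ∀ z, Rl r z → g z ≠ 0 → 1 / 2 ≤ ‖z‖ ∧ ‖z‖ ≤ 3
  real : r = true → ContDiff ℝ 1 (fun x : ℝ => g x) ∧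
    ∀ x : ℝ, ‖deriv (fun x : ℝ => g x) x‖ ≤ B
  cplx : r = false → ContDiff ℝ 1 g ∧ ∀ z, ‖fderiv ℝ g z‖ ≤ B

/-- the product of the absolute values of the cross differences -/
noncomputable def cx (b : Fin 4 → ℂ) : ℝ :=
  ‖b 0 - b 2‖ * ‖b 0 - b 3‖ * ‖b 1 - b 2‖ * ‖b 1 - b 3‖

/-- the product of four quasi-characters -/
noncomputable def g4 (k : ℤ) (μ : ℂ) (b : Fin 4 → ℂ) (z : ℂ) : ℂ :=
  Gm k μ (1 + b 0 / z) * Gm k μ (1 + b 1 / z) * (starRingEnd ℂ) (Gm k μ (1 + b 2 / z)) *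
    (starRingEnd ℂ) (Gm k μ (1 + b 3 / z))

/-- the parameters of the quasi-characters -/
structure Qp (r : Bool) (k : ℤ) (μ : ℂ) : Prop where
  real : r = true → k = 0 ∨ k = 1
  re : |μ.re| ≤ 8

/-- the quadruple of points at one place -/
structure Pt (r : Bool) (b : Fin 4 → ℂ) : Prop where
  real : ∀ i, Rl r (b i)
  le : ∀ i, ‖b i‖ ≤ 1 / 8

/-- The values at `p` with `1 ≤ |p| ≤ 2` of the function `Gm (1 + b / p)` are the average over the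
`p + s`, `|s| ≤ 2 η`, of four functions of the same kind, if `η` times the conductor is at most
`1 / 16`. -/
def Dec (r : Bool) : Prop :=
  ∃ C : ℝ, 1 ≤ C ∧ ∀ (k : ℤ) (μ : ℂ) (η : ℝ), Qp r k μ → 0 < η → η * cc k μ ≤ 1 / 16 →
    ∃ (κ : Fin 4 → ℂ → ℂ) (A : Fin 4 → ℂ → ℂ → ℂ),
    (∀ j, Measurable (κ j)) ∧ (∀ j s, ‖κ j s‖ ≤ η ^ (-(dg r : ℝ))) ∧
    (∀ j s, κ j s ≠ 0 → ‖s‖ ≤ 2 * η) ∧
    (∀ j, Measurable (fun q : ℂ × ℂ => A j q.1 q.2)) ∧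
    (∀ j b, Rl r b → ‖b‖ ≤ 1 / 8 → Sm r C (A j b)) ∧
    (∀ j b z, ‖A j b z‖ ≤ C ∧ (A j b z ≠ 0 → ‖b‖ ≤ 1 / 8 ∧ ‖z‖ ≤ 3)) ∧
    ∀ b p : ℂ, Rl r b → Rl r p → ‖b‖ ≤ 1 / 8 → 1 ≤ ‖p‖ → ‖p‖ ≤ 2 →
      Gm k μ (1 + b / p) = ∑ j : Fin 4, ∫ s, κ j s *
        (A j b (p + s) * Gm k μ (1 + b / (p + s))) ∂mz r

/-- the local factor of the kernel of the unfolding -/
noncomputable def pk (r : Bool) (w : ℂ) : ℝ≥0∞ :=
  mz r {p | 1 ≤ ‖p‖ ∧ ‖p‖ ≤ 2 ∧ ‖w - p‖ ≤ 1 / 8}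

/-- the oscillatory integral of four points -/
noncomputable def Jv (r : Bool) (k : ℤ) (μ : ℂ) (A : ℂ → ℂ → ℂ) (h : Fin 4 → ℂ) : ℝ≥0∞ :=
  ∫⁻ β, ENNReal.ofReal ‖∫ z, (A (β + h 0) z * A (β + h 1) z *
    (starRingEnd ℂ) (A (β + h 2) z) * (starRingEnd ℂ) (A (β + h 3) z)) *
      g4 k μ (fun i => β + h i) z ∂mz r‖ ∂mz r

end Pool.Agent.H29.BH
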