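import Pool.Agent.H23.BG.Defs
import Pool.Agent.H29.BH.DefsA

/-!
# The hybrid bound of Burgess: definitions
-/

set_option autoImplicit false

open NumberField NumberField.InfinitePlace NumberField.Units
  NumberField.Units.dirichletUnitTheorem MeasureTheory Set Filter Complex
open scoped nonZeroDivisors ENNReal

namespace Pool.Agent.H29.BH

open Pool.Agent.H25.HK Pool.Agent.H23.LB Pool.Agent.H23.LC Pool.Agent.H29.DW
open Pool.Agent.H28.RC (Rep ft idl)
open Pool.Agent.H29.TC (dvs)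

section NF

variable {K : Type} [Field K] [NumberField K]

/-! ### Finite sums -/

/-- the bound for complete sums: `N` is the norm of the modulus, `T` the product of the norms of
the four cross ideals, `G` the norm of the ideal of `a_0 = a_1`, `a_2 = a_3` -/
def Bd2 (A N T G x : ℝ) : Prop := x ≤ N ∧ x ^ 2 ≤ A ^ 2 * N * (T * G)

/-- the product of the norms of the four cross ideals -/
noncomputable def cT (f : Ideal (𝓞 K)) (a : Fin 4 → 𝓞 K) : ℝ :=
  Nf K (f ⊔ Ideal.span {a 0 - a 2}) * Nf K (f ⊔ Ideal.span {a 0 - a 3}) *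
    Nf K (f ⊔ Ideal.span {a 1 - a 2}) * Nf K (f ⊔ Ideal.span {a 1 - a 3})

/-- the norm of the ideal of `a_0 = a_1`, `a_2 = a_3` -/
noncomputable def cG (f : Ideal (𝓞 K)) (a : Fin 4 → 𝓞 K) : ℝ :=
  Nf K (f ⊔ Ideal.span {a 0 - a 1} ⊔ Ideal.span {a 2 - a 3})

variable (K)

/-- the norm of `f + x M⁻¹` -/
noncomputable def wf (f : Ideal (𝓞 K)) (M : FI K) (x : K) : ℝ := Nf K (f ⊔ idl K M x)

variable {K}

/-! ### Positions -/

/-- the values of `x` at the infinite places, scaled with `exp(y_v / 2)` -/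
noncomputable def sy (y : InfinitePlace K → ℝ) (x : K) : InfinitePlace K → ℂ :=
  fun v => v.embedding x * ((Real.exp (y v / 2) : ℝ) : ℂ)

variable (K)

/-- the measure on the product of the completions at the infinite places -/
noncomputable def mK : Measure (InfinitePlace K → ℂ) :=
  Measure.pi fun v : InfinitePlace K => mz (rv v)

variable {K}

/-- the inverse of the volume of the scaled lattice, without the factor `|d| ^ (1 / 2)` -/
noncomputable def bt (L : FI K) (y : InfinitePlace K → ℝ) : ℝ :=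
  ((FractionalIdeal.absNorm L : ℝ) * Real.exp ((∑ v, (v.mult : ℝ) * y v) / 2))⁻¹

/-- the absolute value of the norm of the scaled point -/
noncomputable def nv (y : InfinitePlace K → ℝ) (x : K) : ℝ :=
  ∏ v : InfinitePlace K, ‖sy y x v‖ ^ v.mult

/-- the conductor at infinity -/
noncomputable def cK (k : InfinitePlace K → ℤ) (μ : InfinitePlace K → ℂ) : ℝ :=
  ∏ v : InfinitePlace K, cc (k v) (μ v) ^ v.mult

/-- the product of the quasi-characters -/
noncomputable def GG (k : InfinitePlace K → ℤ) (μ : InfinitePlace K → ℂ)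
    (w : InfinitePlace K → ℂ) : ℂ := ∏ v : InfinitePlace K, Gm (k v) (μ v) (w v)

/-- the kernel of the unfolding -/
noncomputable def PK (w : InfinitePlace K → ℂ) : ℝ :=
  ∏ v : InfinitePlace K, (pk (rv v) (w v)).toReal

/-- the sum over the points of `M` in the annulus -/
noncomputable def SS {f : Ideal (𝓞 K)} (χ : HG K f) (M : FI K) (y : InfinitePlace K → ℝ)
    (μ : InfinitePlace K → ℂ) : ℂ :=
  ∑' x : {x : K // x ∈ M}, cg χ M x * (((PK (sy y x.1) : ℝ) : ℂ) * GG χ.k μ (sy y x.1))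

/-- the sum over the points of `L` near `ζ` -/
noncomputable def TT (c : K → ℂ) (L : FI K) (y : InfinitePlace K → ℝ)
    (Φ : (InfinitePlace K → ℂ) → (InfinitePlace K → ℂ) → ℂ) (ζ z : InfinitePlace K → ℂ) : ℂ :=
  ∑' x : {x : K // x ∈ L}, c x * Φ (fun v => sy y x.1 v - ζ v) z

/-- the local functions of the sums `TT` -/
noncomputable def PhA (k : InfinitePlace K → ℤ) (μ : InfinitePlace K → ℂ)
    (A : InfinitePlace K → ℂ → ℂ → ℂ) (b z : InfinitePlace K → ℂ) : ℂ :=
  ∏ v : InfinitePlace K, A v (b v) (z v) * Gm (k v) (μ v) (1 + b v / z v)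

open scoped Classical in
/-- the number of the points `w` of `f a⁻¹ L` with `|ζ + w - z|_v ≤ 2 η_v` for all `v` -/
noncomputable def nA (f : Ideal (𝓞 K)) (L : FI K) (y : InfinitePlace K → ℝ)
    (η : InfinitePlace K → ℝ) (a : Ideal (𝓞 K)) (ζ z : InfinitePlace K → ℂ) : ℝ≥0∞ :=
  ∑' w : {w : K // w ∈ (f : FI K) * ((a : FI K)⁻¹ * L)},
    if ∀ v : InfinitePlace K, ‖ζ v + sy y w.1 v - z v‖ ≤ 2 * η v then 1 else 0

/-- `F` is a fundamental domain for the scaled lattice `I` -/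
def FS (I : FI K) (y : InfinitePlace K → ℝ) (F : Set (InfinitePlace K → ℂ)) : Prop :=
  MeasurableSet F ∧ ∀ g : (InfinitePlace K → ℂ) → ℝ≥0∞, Measurable g →
    ∫⁻ ζ, g ζ ∂mK K = ∫⁻ ζ in F, ∑' x : {x : K // x ∈ I}, g (fun v => ζ v + sy y x.1 v) ∂mK K

/-- the parameters at the infinite places -/
structure Qk (k : InfinitePlace K → ℤ) (μ : InfinitePlace K → ℂ) : Prop where
  loc : ∀ v, Qp (rv v) (k v) (μ v)

/-- the amplitudes -/
structure Amp (B : ℝ) (A : InfinitePlace K → ℂ → ℂ → ℂ) : Prop where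
  meas : ∀ v, Measurable (fun q : ℂ × ℂ => A v q.1 q.2)
  smooth : ∀ v b, Rl (rv v) b → ‖b‖ ≤ 1 / 8 → Sm (rv v) B (A v b)
  bound : ∀ v b z, ‖A v b z‖ ≤ B ∧ (A v b z ≠ 0 → ‖b‖ ≤ 1 / 8 ∧ ‖z‖ ≤ 3)

/-- the parameters of the sums for `N(J) ^ (-(1 / 2 + σ + i t))` -/
noncomputable def mp (ν : InfinitePlace K → ℝ) (σ t : ℝ) (v : InfinitePlace K) : ℂ :=
  (v.mult : ℂ) * ((ν v : ℂ) * I - (1 / 2 + σ + t * I))

/-- multipliers -/
structure Mul (f : Ideal (𝓞 K)) (A : ℝ) (S : Finset (Ideal (𝓞 K))) : Prop where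
  one : 1 ≤ A
  ne : ∀ a ∈ S, a ≠ ⊥
  cop : ∀ a ∈ S, a ⊔ f = ⊤
  size : ∀ a ∈ S, A ≤ Nf K a ∧ Nf K a < 2 * A

end NF

end Pool.Agent.H29.BH
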