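import Pool.Agent.H29.BH.Fin0
import Pool.Agent.H86.BH.P_ID

/-!
# The hybrid bound of Burgess: end
-/

set_option autoImplicit false

open NumberField NumberField.InfinitePlace Complex

namespace Pool.Agent.H29.BH.All

open Pool.Agent.H29.BH

theorem b_ID : P_ID := Pool.Agent.H86.BH.pf_P_ID

theorem final : Fin := b_FI (b_WF b_ID)

end Pool.Agent.H29.BH.All
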