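import Pool.Agent.H29.BH.All
import Pool.Agent.H26.BG.WB
import Pool.Agent.H29.DW.Stmt

/-!
# The hybrid bound of Burgess: from the sum to the `L`-function
-/

set_option autoImplicit false

open NumberField NumberField.InfinitePlace Complex

namespace Pool.Agent.H29.BH.All

open Pool.Agent.H23.LB Pool.Agent.H23.LC Pool.Agent.H29.DW Pool.Agent.H29.DW.Base
open Pool.Agent.H26.BG
open Pool.Agent.H29.THC.Base (c_SY)

/-- the final bound -/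
def Fin : Prop :=
  ∀ n : ℕ, 0 < n → ∀ ε : ℝ, 0 < ε → ∃ C : ℝ, ∀ (K : Type) [Field K] [NumberField K],
    Module.finrank ℚ K = n → ∀ f : Ideal (𝓞 K), f ≠ ⊥ → ∀ χ : HG K f, PrG f χ →
    ∃ L : ℂ → ℂ, IsCon χ L ∧ ∀ t : ℝ, ‖L (1 / 2 + t * I)‖ ≤ C * Cond χ t ^ ε *
      (|(discr K : ℝ)| ^ (1 / 2 : ℝ) * (Ideal.absNorm f * Ci χ.k χ.ν t) ^ (3 / 16 : ℝ))

theorem b_FI (hWF : P_WF) : Fin := by
  intro n hn0 ε hε
  obtain ⟨C, h⟩ := hWF n hn0 ε hε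
  refine ⟨C, ?_⟩
  intro K _ _ hn f hf χ hχ
  obtain ⟨D⟩ := c_SY K f hf
  obtain ⟨L, hL, hent⟩ := u_FK K f hf D χ
  exact ⟨L, ⟨hL.1, hL.2.1, hent⟩, fun t => h K hn f hf χ hχ D L hL t⟩

end Pool.Agent.H29.BH.All
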