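import Pool.Agent.H29.BH.AllRe
import Pool.Agent.H23.BG.Chain

/-!
# Three subconvex bounds for the same `L`-function: end
-/

set_option autoImplicit false

open NumberField NumberField.InfinitePlace Complex

namespace Pool.Agent.H29.BH.AllR

open Pool.Agent.H29.DW.Base
open Pool.Agent.H29.THC.Base (c_SY)

theorem final : Fin3 :=
  pf_Fin3 Pool.Agent.H23.BG.Chain.e_WB Pool.Agent.H23.BG.Chain.e_WD r_WFc c_SY u_FK

end Pool.Agent.H29.BH.AllR
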