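import Pool.Agent.H29.BH.Defs

/-!
# The hybrid bound of Burgess: targets, parts A, F, K
-/

set_option autoImplicit false

open NumberField NumberField.InfinitePlace NumberField.Units
  NumberField.Units.dirichletUnitTheorem MeasureTheory Set Filter Complex
open scoped nonZeroDivisors ENNReal

namespace Pool.Agent.H29.BH

open Pool.Agent.H25.HK Pool.Agent.H23.LB Pool.Agent.H23.LC Pool.Agent.H29.DW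
open Pool.Agent.H28.RC (Rep ft idl)
open Pool.Agent.H29.TC (dvs cq LC Gn MC)
open Pool.Agent.H23.BG (c4 al be ga Iso nrt c4M Ac)

/-! ### Part A: local analysis -/

/-- (AR) the oscillatory integral at a real place. -/
def A_IR : Prop :=
  ∃ C : ℝ, 0 ≤ C ∧ ∀ (k : ℤ) (μ : ℂ) (B : ℝ) (g : ℂ → ℂ) (b : Fin 4 → ℂ), Qp true k μ → 0 ≤ B →
    Sm true B g → Pt true b → cx b ≠ 0 →
    ‖∫ z, g z * g4 k μ b z ∂mz true‖ ≤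
      C * B * (cc k μ ^ (1 / 2 : ℝ) * cx b ^ (1 / 4 : ℝ))⁻¹

/-- (AC) the oscillatory integral at a complex place. -/
def A_IC : Prop :=
  ∀ ε : ℝ, 0 < ε → ε ≤ 1 / 4 → ∃ C : ℝ, 0 ≤ C ∧ ∀ (k : ℤ) (μ : ℂ) (B : ℝ) (g : ℂ → ℂ)
    (b : Fin 4 → ℂ), Qp false k μ → 0 ≤ B → Sm false B g → Pt false b → cx b ≠ 0 →
    ‖∫ z, g z * g4 k μ b z ∂mz false‖ ≤
      C * B * (cc k μ ^ (1 - 2 * ε) * cx b ^ (1 / 2 + 2 * ε))⁻¹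

/-- (A2) the oscillatory integral of two points. -/
def A_I2 : Prop :=
  ∃ C : ℝ, 0 ≤ C ∧ ∀ (r : Bool) (k : ℤ) (μ : ℂ) (B : ℝ) (g : ℂ → ℂ) (b : Fin 4 → ℂ),
    Qp r k μ → 0 ≤ B → Sm r B g → Pt r b → b 0 = b 2 → b 1 ≠ b 3 →
    ‖∫ z, g z * g4 k μ b z ∂mz r‖ ≤
      C * B * ((cc k μ * ‖b 1 - b 3‖) ^ ((dg r : ℝ) / 2))⁻¹

/-- (DR) separation at a real place. -/
def A_DR : Prop := Dec true

/-- (DC) separation at a complex place. -/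
def A_DC : Prop := Dec false

/-- (J) the bounds for the local integrals. -/
def A_J : Prop :=
  ∀ ε : ℝ, 0 < ε → ε ≤ 1 / 4 → ∃ C : ℝ, 1 ≤ C ∧ ∀ (r : Bool) (k : ℤ) (μ : ℂ) (B : ℝ)
    (A : ℂ → ℂ → ℂ) (h : Fin 4 → ℂ), Qp r k μ → 1 ≤ B →
    (∀ b, Rl r b → ‖b‖ ≤ 1 / 8 → Sm r B (A b)) →
    (∀ b z, A b z ≠ 0 → ‖b‖ ≤ 1 / 8) → (∀ i, Rl r (h i)) → h 0 = 0 →
    Jv r k μ A h ≤ ENNReal.ofReal (C * B ^ 4) ∧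
    ((∃ i, 1 / 4 < ‖h i‖) → Jv r k μ A h = 0) ∧
    (cx h ≠ 0 → Jv r k μ A h ≤ ENNReal.ofReal (C * B ^ 4 *
      (cc k μ ^ ((dg r : ℝ) * (1 / 2 - ε)) * cx h ^ ((dg r : ℝ) * (1 / 4 + ε)))⁻¹)) ∧
    (h 0 = h 2 → h 1 ≠ h 3 → Jv r k μ A h ≤
      ENNReal.ofReal (C * B ^ 4 * ((cc k μ * ‖h 1 - h 3‖) ^ ((dg r : ℝ) / 2))⁻¹)) ∧
    (h 0 = h 3 → h 1 ≠ h 2 → Jv r k μ A h ≤
      ENNReal.ofReal (C * B ^ 4 * ((cc k μ * ‖h 1 - h 2‖) ^ ((dg r : ℝ) / 2))⁻¹)) ∧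
    (h 1 = h 2 → h 0 ≠ h 3 → Jv r k μ A h ≤
      ENNReal.ofReal (C * B ^ 4 * ((cc k μ * ‖h 0 - h 3‖) ^ ((dg r : ℝ) / 2))⁻¹)) ∧
    (h 1 = h 3 → h 0 ≠ h 2 → Jv r k μ A h ≤
      ENNReal.ofReal (C * B ^ 4 * ((cc k μ * ‖h 0 - h 2‖) ^ ((dg r : ℝ) / 2))⁻¹))

/-- (PK) the kernel of the unfolding. -/
def A_PK : Prop :=
  (∀ r, Measurable (pk r)) ∧ (∀ r w, pk r w ≤ 1) ∧
  (∀ r w, pk r w ≠ 0 → 7 / 8 ≤ ‖w‖ ∧ ‖w‖ ≤ 17 / 8) ∧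
  (∀ r θ w, Rl r θ → Rl r w → ‖θ‖ = 1 → pk r (θ * w) = pk r w) ∧
  ∃ c : ℝ, 0 < c ∧ ∀ r w, Rl r w → 19 / 20 ≤ ‖w‖ → ‖w‖ ≤ 21 / 20 → ENNReal.ofReal c ≤ pk r w

/-! ### Part F: finite sums -/

/-- (F1) the complete sum modulo a prime. -/
def F_1 : Prop :=
  ∀ n : ℕ, ∀ (K : Type) [Field K] [NumberField K], Module.finrank ℚ K = n →
    ∀ P : Ideal (𝓞 K), P.IsPrime → P ≠ ⊥ → ∀ [Fintype (𝓞 K ⧸ P ^ 1)] (η : 𝓞 K ⧸ P ^ 1 → ℂ),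
    LC (P ^ 1) η → ∀ a : Fin 4 → 𝓞 K,
    Bd2 (Ac K n P) (Nf K (P ^ 1)) (cT (P ^ 1) a) (cG (P ^ 1) a)
      ‖c4 η (fun i => Ideal.Quotient.mk (P ^ 1) (a i))‖

/-- (F2) the complete sum modulo a prime power. -/
def F_2 : Prop :=
  ∀ n : ℕ, ∀ (K : Type) [Field K] [NumberField K], Module.finrank ℚ K = n →
    ∀ P : Ideal (𝓞 K), P.IsPrime → P ≠ ⊥ → ∀ e : ℕ, 2 ≤ e → ∀ [Fintype (𝓞 K ⧸ P ^ e)]
    (η : 𝓞 K ⧸ P ^ e → ℂ), LC (P ^ e) η → ∀ a : Fin 4 → 𝓞 K,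
    Bd2 (Ac K n P) (Nf K (P ^ e)) (cT (P ^ e) a) (cG (P ^ e) a)
      ‖c4 η (fun i => Ideal.Quotient.mk (P ^ e) (a i))‖

/-- (F3) the complete sum modulo an ideal. -/
def F_3 : Prop :=
  ∀ n : ℕ, ∀ (K : Type) [Field K] [NumberField K], Module.finrank ℚ K = n →
    ∀ f : Ideal (𝓞 K), f ≠ ⊥ → ∀ [Fintype (𝓞 K ⧸ f)] (η : 𝓞 K ⧸ f → ℂ), LC f η →
    ∀ a : Fin 4 → 𝓞 K,
    Bd2 (4 ^ (n * (n + 1)) * ((dvs K f).card : ℝ) ^ 2) (Nf K f) (cT f a) (cG f a)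
      ‖c4 η (fun i => Ideal.Quotient.mk f (a i))‖

/-- (F4) the degenerate complete sum modulo a prime power. -/
def F_4 : Prop :=
  ∀ (K : Type) [Field K] [NumberField K] (P : Ideal (𝓞 K)), P.IsPrime → P ≠ ⊥ → ∀ e : ℕ, 1 ≤ e →
    ∀ [Fintype (𝓞 K ⧸ P ^ e)] (η : 𝓞 K ⧸ P ^ e → ℂ), LC (P ^ e) η → ∀ a : Fin 4 → 𝓞 K,
    a 0 = a 2 → ‖c4 η (fun i => Ideal.Quotient.mk (P ^ e) (a i))‖ ≤
      2 * Nf K (P ^ e ⊔ Ideal.span {a 1 - a 3})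

/-- (F5) the degenerate complete sum modulo an ideal. -/
def F_5 : Prop :=
  ∀ (K : Type) [Field K] [NumberField K] (f : Ideal (𝓞 K)), f ≠ ⊥ → ∀ [Fintype (𝓞 K ⧸ f)]
    (η : 𝓞 K ⧸ f → ℂ), LC f η → ∀ a : Fin 4 → 𝓞 K, a 0 = a 2 →
    ‖c4 η (fun i => Ideal.Quotient.mk f (a i))‖ ≤
      (dvs K f).card * Nf K (f ⊔ Ideal.span {a 1 - a 3})

/-- (F6) the complete sums of the coefficients. -/
def F_6 : Prop :=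
  ∀ n : ℕ, ∀ (K : Type) [Field K] [NumberField K], Module.finrank ℚ K = n →
    ∀ f : Ideal (𝓞 K), f ≠ ⊥ → ∀ (χ : HG K f), PrG f χ → ∀ (M : FI K) (X : Finset K),
    M ≠ 0 → Rep K f M X → ∀ b : Fin 4 → K, (∀ i, b i ∈ M) →
    ‖c4M K X (cg χ M) b‖ ≤ Nf K f ∧
    ‖c4M K X (cg χ M) b‖ ^ 2 ≤ (4 ^ (n * (n + 1)) * ((dvs K f).card : ℝ) ^ 2) ^ 2 * Nf K f *
      ((wf K f M (b 0 - b 2) * wf K f M (b 0 - b 3) * wf K f M (b 1 - b 2) *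
        wf K f M (b 1 - b 3)) * Nf K (f ⊔ idl K M (b 0 - b 1) ⊔ idl K M (b 2 - b 3))) ∧
    (b 0 = b 2 → ‖c4M K X (cg χ M) b‖ ≤ (dvs K f).card * wf K f M (b 1 - b 3)) ∧
    (b 0 = b 3 → ‖c4M K X (cg χ M) b‖ ≤ (dvs K f).card * wf K f M (b 1 - b 2)) ∧
    (b 1 = b 2 → ‖c4M K X (cg χ M) b‖ ≤ (dvs K f).card * wf K f M (b 0 - b 3)) ∧
    (b 1 = b 3 → ‖c4M K X (cg χ M) b‖ ≤ (dvs K f).card * wf K f M (b 0 - b 2))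

/-! ### Part K: lattices -/

/-- (UF) a fundamental domain. -/
def K_UF : Prop :=
  ∀ (K : Type) [Field K] [NumberField K] (I : FI K) (y : InfinitePlace K → ℝ), I ≠ 0 →
    ∃ F : Set (InfinitePlace K → ℂ), FS I y F

/-- (NV) the norm of a scaled point. -/
def K_NV : Prop :=
  ∀ (K : Type) [Field K] [NumberField K] (L : FI K) (y : InfinitePlace K → ℝ), L ≠ 0 →
    0 < bt L y ∧ (∀ x ∈ L, nv y x * bt L y = Nf K (idl K L x)) ∧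
    (∀ x ∈ L, x ≠ 0 → 1 ≤ nv y x * bt L y) ∧ (∀ x : K, nv y (-x) = nv y x) ∧
    (∀ j : Ideal (𝓞 K), j ≠ ⊥ → bt ((j : FI K) * L) y = bt L y / Nf K j ∧
      bt ((j : FI K)⁻¹ * L) y = bt L y * Nf K j) ∧
    ∀ (τ : ℝ) (z : logSpace K), bt L (yM K L τ z) = Real.exp (-τ)

/-- (NB) the number of the lattice points in a box. -/
def K_NB : Prop :=
  ∀ n : ℕ, 0 < n → ∃ C : ℝ, 1 ≤ C ∧ ∀ (K : Type) [Field K] [NumberField K],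
    Module.finrank ℚ K = n → ∀ (L : FI K) (y R : InfinitePlace K → ℝ), L ≠ 0 → (∀ v, 0 ≤ R v) →
    {h : K | h ∈ L ∧ h ≠ 0 ∧ ∀ v, ‖sy y h v‖ ≤ R v}.Finite ∧
    ({h : K | h ∈ L ∧ h ≠ 0 ∧ ∀ v, ‖sy y h v‖ ≤ R v}.ncard : ℝ) ≤
      C * (∏ v, R v ^ v.mult) * bt L y

open scoped Classical in
/-- (GS) the weighted sum over the lattice points in a box. -/
def K_GS : Prop :=
  ∀ n : ℕ, 0 < n → ∀ κ : ℝ, 0 ≤ κ → κ < 1 → ∃ C : ℝ, 1 ≤ C ∧ ∀ (K : Type) [Field K]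
    [NumberField K], Module.finrank ℚ K = n → ∀ (f : Ideal (𝓞 K)) (L : FI K)
    (y : InfinitePlace K → ℝ), f ≠ ⊥ → L ≠ 0 →
    ∑' h : K, (if h ∈ L ∧ h ≠ 0 ∧ ∀ v, ‖sy y h v‖ ≤ 1 then
      ENNReal.ofReal (wf K f L h * nv y h ^ (-κ)) else 0) ≤
      ENNReal.ofReal (C * (dvs K f).card * bt L y)

/-- (K4) the inequality of Loomis and Whitney for the complete graph with four vertices. -/
def K_K4 : Prop :=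
  ∀ (G : Type) [AddCommGroup G] (w : Fin 6 → G → ℝ≥0∞),
    ∑' a : G, ∑' b : G, ∑' c : G, w 0 a * w 1 b * w 2 c * w 3 (a - b) * w 4 (a - c) * w 5 (b - c) ≤
      ∏ i : Fin 6, (∑' g : G, w i g ^ 2) ^ (1 / 2 : ℝ)

end Pool.Agent.H29.BH
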